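import Pool.Agent.Zk42.UG.G5
import Pool.Agent.Zk42.UC.Desc

/-! The uniform bound for the preperiodic points. -/

set_option autoImplicit false

namespace Pool.Agent.Zk42.UG

open Pool.Agent.Zk42.UC Finset Polynomial IsDedekindDomain NumberField
open scoped WithZero

/-- square roots exist in number fields -/
theorem sq_field (L : Type) [Field L] [NumberField L] (T : Finset L) :
    ∃ (L' : Type) (_ : Field L') (_ : NumberField L') (φ : L →+* L'),
      ∀ τ ∈ T, ∃ r : L', r ^ 2 = φ τ := by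
  classical
  induction T using Finset.induction_on with
  | empty => exact ⟨L, inferInstance, inferInstance, RingHom.id L, fun τ hτ => by simp at hτ⟩
  | insert τ T hτ ih =>
    obtain ⟨L₁, _, _, φ₁, h₁⟩ := ih
    obtain ⟨L₂, _, _, φ₂, θ, hθ⟩ := exists_root L₁ 2 (by norm_num) (φ₁ τ)
    refine ⟨L₂, inferInstance, inferInstance, φ₂.comp φ₁, fun τ' hτ' => ?_⟩
    rw [mem_insert] at hτ'
    rcases hτ' with rfl | hτ'
    · exact ⟨θ, hθ⟩
    · obtain ⟨r, hr⟩ := h₁ τ' hτ'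
      exact ⟨φ₂ r, by rw [← map_pow, hr]; rfl⟩

lemma PP_hom {L L' : Type*} [Field L] [Field L'] (φ : L →+* L') {a b x : L} {d : ℕ}
    (h : PP (fu a b d) x) : PP (fu (φ a) (φ b) d) (φ x) := by
  have hs : Function.Semiconj φ (fu a b d) (fu (φ a) (φ b) d) := by
    intro y
    unfold fu
    rw [map_add, map_mul, map_pow]
  obtain ⟨m, n, hmn, he⟩ := h
  refine ⟨m, n, hmn, ?_⟩
  rw [← (hs.iterate_right m) x, ← (hs.iterate_right n) x, he]

/-- the number of the preperiodic points whose ratio with `w` is in the set of the ratios -/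
theorem rset_bound {d : ℕ} (hd : 5 ≤ d) (L : Type) [Field L] [NumberField L] {μ : L}
    (hμ : IsPrimitiveRoot μ d) (T : Finset L) :
    ∃ N : ℕ, ∀ a b w : L, a ≠ 0 → w ≠ 0 → PP (fu a b d) w → ∀ Y : Finset L,
      (∀ u ∈ Y, PP (fu a b d) u ∧ u / w ∈ Rset L d 2 T) → Y.card ≤ N := by
  classical
  obtain ⟨L', _, _, φ, hφ⟩ := sq_field L T
  have hμ' : IsPrimitiveRoot (φ μ) d := hμ.map_of_injective φ.injective
  obtain ⟨N, hN⟩ := ratio_bound hd L' hμ'
  refine ⟨N, ?_⟩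
  intro a b w ha hw0 hw Y hY
  have hinj : Set.InjOn (fun u : L => φ u / φ w) (Y : Set L) := by
    intro u _ u' _ h
    have h0 : φ w ≠ 0 := (map_ne_zero φ).2 hw0
    exact φ.injective ((div_left_inj' h0).1 h)
  rw [← card_image_of_injOn hinj]
  refine hN (φ a) (φ b) (φ w) ((map_ne_zero φ).2 ha) ((map_ne_zero φ).2 hw0) (PP_hom φ hw) _ ?_
  intro t ht
  obtain ⟨u, hu, rfl⟩ := mem_image.1 ht
  obtain ⟨hPu, hR⟩ := hY u hu
  obtain ⟨h1, h2⟩ := hR
  refine ⟨⟨φ u, PP_hom φ hPu, rfl⟩, ?_, ?_⟩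
  · intro h
    apply h1
    apply φ.injective
    rw [map_pow, map_div₀, map_one, h]
  have hμd : μ ^ d = 1 := hμ.pow_eq_one
  have hne : ∀ i : ℕ, 0 < i → i < d → μ ^ i ≠ 1 := fun i hi hid h => by
    have := hμ.pow_inj hid (by omega : 0 < d) (by rw [h, pow_zero])
    omega
  have n1 : μ ≠ 1 := by simpa using hne 1 (by omega) (by omega)
  have p : ∀ i : ℕ, (μ ^ i) ^ d = 1 := fun i => by rw [← pow_mul, mul_comm, pow_mul, hμd, one_pow]
  obtain ⟨τ₁, hτ₁, x₁, -, e₁⟩ := h2 μ (μ ^ 4) hμd (p 4) n1 (hne 4 (by omega) (by omega))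
  obtain ⟨τ₂, hτ₂, x₂, -, e₂⟩ := h2 (μ ^ 2) (μ ^ 4) (p 2) (p 4) (hne 2 (by omega) (by omega))
    (hne 4 (by omega) (by omega))
  obtain ⟨τ₃, hτ₃, x₃, -, e₃⟩ := h2 (μ ^ 3) (μ ^ 4) (p 3) (p 4) (hne 3 (by omega) (by omega))
    (hne 4 (by omega) (by omega))
  obtain ⟨r₁, hr₁⟩ := hφ τ₁ hτ₁
  obtain ⟨r₂, hr₂⟩ := hφ τ₂ hτ₂
  obtain ⟨r₃, hr₃⟩ := hφ τ₃ hτ₃
  have e₁' := congrArg φ e₁
  have e₂' := congrArg φ e₂
  have e₃' := congrArg φ e₃
  simp only [map_sub, map_mul, map_pow, map_div₀] at e₁' e₂' e₃'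
  rw [← hr₁] at e₁'
  rw [← hr₂] at e₂'
  rw [← hr₃] at e₃'
  refine ⟨(r₁ * φ x₁) * (r₂ * φ x₂) * (r₃ * φ x₃) * (φ u / φ w - φ μ ^ 4) ^ 2, ?_⟩
  unfold f4 cf
  have s₁ : φ u / φ w - φ μ ^ 4 - (φ μ - φ μ ^ 4) = φ u / φ w - φ μ := by ring
  have s₂ : φ u / φ w - φ μ ^ 4 - (φ μ ^ 2 - φ μ ^ 4) = φ u / φ w - φ μ ^ 2 := by ring
  have s₃ : φ u / φ w - φ μ ^ 4 - (φ μ ^ 3 - φ μ ^ 4) = φ u / φ w - φ μ ^ 3 := by ring
  show _ = (φ u / φ w - φ μ ^ 4) * (φ u / φ w - φ μ ^ 4 - (φ μ - φ μ ^ 4)) *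
    (φ u / φ w - φ μ ^ 4 - (φ μ ^ 2 - φ μ ^ 4)) * (φ u / φ w - φ μ ^ 4 - (φ μ ^ 3 - φ μ ^ 4))
  rw [s₁, s₂, s₃, e₁', e₂', e₃']
  ring

section count

variable {L : Type} [Field L] [NumberField L] [DecidableEq L] {d n : ℕ} {μ : L}

lemma finset_of_bound {α : Type*} (p : α → Prop) (N : ℕ)
    (h : ∀ Y : Finset α, (∀ u ∈ Y, p u) → Y.card ≤ N) :
    ∃ Z : Finset α, (∀ u, p u → u ∈ Z) ∧ Z.card ≤ N := by
  classical
  have hfin : {u | p u}.Finite := by
    by_contra hinf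
    obtain ⟨t, ht, hc⟩ := Set.Infinite.exists_subset_card_eq hinf (N + 1)
    have := h t (fun u hu => ht hu)
    omega
  refine ⟨hfin.toFinset, fun u hu => hfin.mem_toFinset.2 hu, h _ fun u hu => ?_⟩
  exact hfin.mem_toFinset.1 hu

/-- uniform bound over a field containing the roots of unity -/
theorem count_L (S : Set (HeightOneSpectrum (𝓞 L))) (hdS : ∀ v ∉ S, v.valuation L (d : L) = 1)
    {T : Finset L} (hT : Good S n T) (hμ : IsPrimitiveRoot μ d) (hd : 2 ≤ d) {N : ℕ}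
    (hN : ∀ a b w : L, a ≠ 0 → w ≠ 0 → PP (fu a b d) w → ∀ Y : Finset L,
      (∀ u ∈ Y, PP (fu a b d) u ∧ u / w ∈ Rset L d n T) → Y.card ≤ N) :
    ∃ B : ℕ, ∀ a b : L, a ≠ 0 → Cond S a b d n → ∀ X : Finset L,
      (∀ x ∈ X, PP (fu a b d) x) → X.card ≤ B := by
  refine ⟨1 + ((N + 1) + d * (N + 1) + (N + 1) * N + (N + 1) * (N * d)), ?_⟩
  intro a b ha hC X hX
  by_cases h0 : ∃ y : L, Per (fu a b d) y ∧ y ≠ 0
  swap
  · push Not at h0
    have : X ⊆ {0} := by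
      intro x hx
      rw [mem_singleton]
      rcases cases_pp hdS hT hμ hd ha hC (hX x hx) with h | ⟨w, hw, hw0, -⟩
      · exact h0 x h
      · exact absurd (h0 w hw) hw0
    have h1 := card_le_card this
    rw [card_singleton] at h1
    exact h1.trans (Nat.le_add_right _ _)
  obtain ⟨y0, hy0, hy00⟩ := h0
  have hZ : ∀ w : L, ∃ Z : Finset L, (w ≠ 0 → PP (fu a b d) w → ∀ u, PP (fu a b d) u →
      u / w ∈ Rset L d n T → u ∈ Z) ∧ Z.card ≤ N := by
    intro w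
    by_cases hw : w ≠ 0 ∧ PP (fu a b d) w
    · obtain ⟨Z, h1, h2⟩ := finset_of_bound
        (fun u => PP (fu a b d) u ∧ u / w ∈ Rset L d n T) N (hN a b w ha hw.1 hw.2)
      exact ⟨Z, fun _ _ u hu hR => h1 u ⟨hu, hR⟩, h2⟩
    · exact ⟨∅, fun h1 h2 => absurd ⟨h1, h2⟩ hw, by simp⟩
  choose Rf hRf hRc using hZ
  set PF := insert y0 (Rf y0) with hPF
  have hPFcard : PF.card ≤ N + 1 := (card_insert_le _ _).trans (by have := hRc y0; omega)
  have hPmem : ∀ x : L, Per (fu a b d) x → x ∈ PF := by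
    intro x hx
    by_cases hxy : x = y0
    · rw [hPF, hxy]; exact mem_insert_self _ _
    · rw [hPF]
      exact mem_insert_of_mem (hRf y0 hy00 hy0.pp x hx.pp
        (per_ratio hdS hT hμ hd hC hx hy0 hxy hy00))
  set A1 := (nthRootsFinset d (1 : L) ×ˢ PF).image (fun p => p.1 * p.2) with hA1
  set A2 := PF.biUnion Rf with hA2
  set A3 := PF.biUnion (fun w => (Rf w).biUnion fun z =>
    (nthRoots d ((z - b) / a)).toFinset) with hA3
  have hsub : X ⊆ ((PF ∪ A1) ∪ A2) ∪ A3 := by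
    intro x hx
    have hxP := hX x hx
    rcases cases_pp hdS hT hμ hd ha hC hxP with h | ⟨w, hw, hw0, ⟨ζ, hζ, hx'⟩ | h | h⟩
    · exact mem_union_left _ (mem_union_left _ (mem_union_left _ (hPmem x h)))
    · refine mem_union_left _ (mem_union_left _ (mem_union_right _ ?_))
      exact mem_image.2 ⟨(ζ, w), mem_product.2 ⟨(UC.mem_roots (by omega)).2 hζ, hPmem w hw⟩,
        hx'.symm⟩
    · refine mem_union_left _ (mem_union_right _ ?_)
      exact mem_biUnion.2 ⟨w, hPmem w hw, hRf w hw0 hw.pp x hxP h⟩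
    · refine mem_union_right _ ?_
      refine mem_biUnion.2 ⟨w, hPmem w hw, mem_biUnion.2 ⟨fu a b d x,
        hRf w hw0 hw.pp _ hxP.map h, ?_⟩⟩
      rw [Multiset.mem_toFinset, mem_nthRoots (by omega)]
      unfold fu
      field_simp
      ring
  have c1 : A1.card ≤ d * (N + 1) := by
    refine card_image_le.trans ?_
    rw [card_product, hμ.card_nthRootsFinset]
    exact Nat.mul_le_mul_left _ hPFcard
  have c2 : A2.card ≤ (N + 1) * N :=
    (card_biUnion_le_card_mul _ _ N fun w _ => hRc w).trans (Nat.mul_le_mul_right _ hPFcard)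
  have c3 : A3.card ≤ (N + 1) * (N * d) := by
    refine (card_biUnion_le_card_mul _ _ (N * d) fun w _ => ?_).trans
      (Nat.mul_le_mul_right _ hPFcard)
    refine (card_biUnion_le_card_mul _ _ d fun z _ => ?_).trans (Nat.mul_le_mul_right _ (hRc w))
    exact (Multiset.toFinset_card_le _).trans (card_nthRoots _ _)
  have c4 := card_le_card hsub
  have c5 := card_union_le ((PF ∪ A1) ∪ A2) A3
  have c6 := card_union_le (PF ∪ A1) A2
  have c7 := card_union_le PF A1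
  omega

end count

/-- uniform bound over an arbitrary number field -/
theorem count_K {d : ℕ} (hd : 5 ≤ d) (K : Type) [Field K] [NumberField K]
    (S : Set (HeightOneSpectrum (𝓞 K))) (hS : S.Finite) :
    ∃ B : ℕ, ∀ a b : K, a ≠ 0 → CondK S a b d 2 → ∀ X : Finset K,
      (∀ x ∈ X, PP (fu a b d) x) → X.card ≤ B := by
  classical
  have hne : NeZero d := ⟨by omega⟩
  let L := CyclotomicField d K
  have hμ : IsPrimitiveRoot (IsCyclotomicExtension.zeta d K L) d :=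
    IsCyclotomicExtension.zeta_spec d K L
  obtain ⟨SL, hSLfin, hout⟩ := places K L S hS d (by omega)
  obtain ⟨T, -, hT⟩ := sel2 L SL hSLfin
  have hinj : Function.Injective (algebraMap K L) := (algebraMap K L).injective
  have hdS : ∀ w ∉ SL, w.valuation L ((d : ℕ) : L) = 1 := fun w hw => (hout w hw).1
  obtain ⟨N, hN⟩ := rset_bound hd L hμ T
  obtain ⟨B, hB⟩ := count_L (n := 2) SL hdS (T := T) hT hμ (by omega) hN
  refine ⟨B, ?_⟩
  intro a b ha hC X hX
  rcases X.eq_empty_or_nonempty with rfl | ⟨x0, hx0⟩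
  · simp
  have hmap := hB (algebraMap K L a) (algebraMap K L b)
    (fun h => ha ((map_eq_zero (algebraMap K L)).1 h))
    (cond_up (by omega) hout hC (hX x0 hx0))
    (X.map ⟨algebraMap K L, hinj⟩) (by
      intro y hy
      rw [mem_map] at hy
      obtain ⟨x, hx, rfl⟩ := hy
      exact (hX x hx).up)
  rwa [card_map] at hmap

end Pool.Agent.Zk42.UG
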