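import Pool.Agent.Zk42.UC.Loc

/-! The sizes of the preperiodic points of `a x ^ d + b` at an arbitrary absolute value. -/

set_option autoImplicit false

namespace Pool.Agent.Zk42.UG

open Pool.Agent.Zk42.UC Finset Polynomial

section loc

variable {L : Type*} [Field L] {v : AbsoluteValue L ℝ} {k : ℝ} {a b : L} {d : ℕ}

/-- the preperiodic points are bounded -/
lemma esc (hk : 1 ≤ k) (hadd : ∀ x y, v (x + y) ≤ k * max (v x) (v y)) (hd : 2 ≤ d) {x : L}
    (hx : PP (fu a b d) x) : v a * v x ^ (d - 1) ≤ k ∨ v a * v x ^ d ≤ k * v b := by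
  by_contra hc
  push Not at hc
  have hk0 : 0 < k := by linarith
  refine not_pp_of_incr (fu a b d) v (fun y => k < v a * v y ^ (d - 1) ∧
    k * v b < v a * v y ^ d) ?_ hc hx
  rintro y ⟨h1, h2⟩
  have hy0 : 0 < v y := by
    by_contra hy
    have : v y = 0 := le_antisymm (not_lt.1 hy) (v.nonneg _)
    rw [this, zero_pow (by omega), mul_zero] at h1
    linarith
  have ha0 : 0 ≤ v a := v.nonneg _
  have e1 : v (a * y ^ d) = v a * v y ^ d := by rw [map_mul, map_pow]
  have h3 : v a * v y ^ d ≤ k * v (fu a b d y) := by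
    have h4 := hadd (fu a b d y) (-b)
    have e2 : fu a b d y + -b = a * y ^ d := by unfold fu; ring
    rw [e2, e1, v.map_neg] at h4
    rcases le_total (v b) (v (fu a b d y)) with h5 | h5
    · rwa [max_eq_left h5] at h4
    · rw [max_eq_right h5] at h4
      linarith
  have e3 : v a * v y ^ d = (v a * v y ^ (d - 1)) * v y := by
    rw [mul_assoc, ← pow_succ, Nat.sub_add_cancel (by omega)]
  have h6 : v y < v (fu a b d y) := by
    have h7 : k * v y < v a * v y ^ d := by
      rw [e3]
      exact mul_lt_mul_of_pos_right h1 hy0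
    exact lt_of_mul_lt_mul_left (h7.trans_le h3) hk0.le
  refine ⟨⟨?_, ?_⟩, h6⟩
  · exact h1.trans_le (by gcongr)
  · exact h2.trans_le (by gcongr)

/-- the homogeneous form of the bound -/
lemma hbound (hk : 1 ≤ k) (hadd : ∀ x y, v (x + y) ≤ k * max (v x) (v y)) (hd : 2 ≤ d) {x : L}
    (hx : PP (fu a b d) x) :
    v x ^ (d * (d - 1)) * v a ^ d ≤ k ^ d * max (v (a * b ^ (d - 1))) 1 := by
  have hk0 : 0 < k := by linarith
  have ha0 : 0 ≤ v a := v.nonneg _
  have hb0 : 0 ≤ v b := v.nonneg _
  have hx0 : 0 ≤ v x := v.nonneg _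
  rcases esc hk hadd hd hx with h | h
  · calc v x ^ (d * (d - 1)) * v a ^ d = (v a * v x ^ (d - 1)) ^ d := by
          rw [mul_pow, ← pow_mul, Nat.mul_comm d]; ring
      _ ≤ k ^ d := by gcongr
      _ = k ^ d * 1 := (mul_one _).symm
      _ ≤ _ := by gcongr; exact le_max_right _ _
  · have e : v a ^ d = v a ^ (d - 1) * v a := by
      rw [← pow_succ, Nat.sub_add_cancel (by omega)]
    calc v x ^ (d * (d - 1)) * v a ^ d = (v a * v x ^ d) ^ (d - 1) * v a := by
          rw [mul_pow, ← pow_mul, e]; ring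
      _ ≤ (k * v b) ^ (d - 1) * v a := by gcongr
      _ = k ^ (d - 1) * v (a * b ^ (d - 1)) := by rw [mul_pow, map_mul, map_pow]; ring
      _ ≤ k ^ d * v (a * b ^ (d - 1)) := by
          have := v.nonneg (a * b ^ (d - 1))
          gcongr
          omega
      _ ≤ _ := by gcongr; exact le_max_left _ _

/-- the large case -/
lemma big_upper (hk : 1 ≤ k) (hadd : ∀ x y, v (x + y) ≤ k * max (v x) (v y)) (hd : 2 ≤ d)
    (hA : k < v (a * b ^ (d - 1))) {x : L} (hx : PP (fu a b d) x) : v a * v x ^ d ≤ k * v b := by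
  rcases esc hk hadd hd hx with h | h
  swap
  · exact h
  have hk0 : 0 < k := by linarith
  have ha0 : 0 ≤ v a := v.nonneg _
  have hb0 : 0 ≤ v b := v.nonneg _
  have hx0 : 0 ≤ v x := v.nonneg _
  have h1 : v x ≤ v b := by
    by_contra hc
    push Not at hc
    rw [map_mul, map_pow] at hA
    have : v a * v b ^ (d - 1) ≤ v a * v x ^ (d - 1) := by gcongr
    linarith
  calc v a * v x ^ d = (v a * v x ^ (d - 1)) * v x := by
        rw [mul_assoc, ← pow_succ, Nat.sub_add_cancel (by omega)]
    _ ≤ k * v b := by gcongr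

lemma big_lower (hk : 1 ≤ k) (hadd : ∀ x y, v (x + y) ≤ k * max (v x) (v y)) (hd : 2 ≤ d)
    (hA : k ^ (d + 1) < v (a * b ^ (d - 1))) {x : L} (hx : PP (fu a b d) x) :
    v b ≤ k * (v a * v x ^ d) := by
  have hk0 : 0 < k := by linarith
  have ha0 : 0 ≤ v a := v.nonneg _
  have hb0 : 0 ≤ v b := v.nonneg _
  have hx0 : 0 ≤ v x := v.nonneg _
  have hk1 : k ≤ k ^ (d + 1) := by
    calc k = k ^ 1 := (pow_one _).symm
      _ ≤ _ := pow_le_pow_right₀ hk (by omega)
  have hA1 : k < v (a * b ^ (d - 1)) := by linarith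
  have h2 := hadd (fu a b d x) (-(a * x ^ d))
  have e2 : fu a b d x + -(a * x ^ d) = b := by unfold fu; ring
  rw [e2, v.map_neg, map_mul, map_pow] at h2
  rcases le_total (v (fu a b d x)) (v a * v x ^ d) with h5 | h5
  · rwa [max_eq_right h5] at h2
  rw [max_eq_left h5] at h2
  exfalso
  have h3 := big_upper hk hadd hd hA1 hx.map
  have hbpos : 0 < v b := by
    by_contra hc
    have : v b = 0 := le_antisymm (not_lt.1 hc) hb0
    rw [map_mul, map_pow, this, zero_pow (by omega), mul_zero] at hA1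
    linarith
  have h4 : v a * v b ^ d ≤ k ^ (d + 1) * v b := by
    calc v a * v b ^ d ≤ v a * (k * v (fu a b d x)) ^ d := by gcongr
      _ = k ^ d * (v a * v (fu a b d x) ^ d) := by rw [mul_pow]; ring
      _ ≤ k ^ d * (k * v b) := by gcongr
      _ = _ := by ring
  have h6 : v (a * b ^ (d - 1)) * v b ≤ k ^ (d + 1) * v b := by
    calc v (a * b ^ (d - 1)) * v b = v a * v b ^ d := by
          rw [map_mul, map_pow, mul_assoc, ← pow_succ, Nat.sub_add_cancel (by omega)]
      _ ≤ _ := h4
  have h7 := le_of_mul_le_mul_right h6 hbpos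
  linarith

/-- the ratio of two preperiodic points is close to a root of unity -/
lemma near (hk : 1 ≤ k) (hadd : ∀ x y, v (x + y) ≤ k * max (v x) (v y)) (hd : 2 ≤ d)
    (hA : k ^ (d + 1) < v (a * b ^ (d - 1))) {u w : L} (hu : PP (fu a b d) u)
    (hw : PP (fu a b d) w) :
    v ((u / w) ^ d - 1) ^ d * v (a * b ^ (d - 1)) ≤ k ^ (3 * d) := by
  have hk0 : 0 < k := by linarith
  have ha0 : 0 ≤ v a := v.nonneg _
  have hb0 : 0 ≤ v b := v.nonneg _
  have hk1 : k ≤ k ^ (d + 1) := by
    calc k = k ^ 1 := (pow_one _).symm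
      _ ≤ _ := pow_le_pow_right₀ hk (by omega)
  have hA1 : k < v (a * b ^ (d - 1)) := by linarith
  have hA2 : v (a * b ^ (d - 1)) = v a * v b ^ (d - 1) := by rw [map_mul, map_pow]
  have hbpos : 0 < v b := by
    by_contra hc
    have : v b = 0 := le_antisymm (not_lt.1 hc) hb0
    rw [hA2, this, zero_pow (by omega), mul_zero] at hA1
    linarith
  have hl := big_lower hk hadd hd hA hw
  have hw0 : 0 < v a * v w ^ d := by
    by_contra hc
    have : v a * v w ^ d = 0 := le_antisymm (not_lt.1 hc) (by have := v.nonneg w; positivity)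
    rw [this, mul_zero] at hl
    linarith
  have ha' : a ≠ 0 := by
    rintro rfl
    rw [map_zero, zero_mul] at hw0
    exact lt_irrefl _ hw0
  have hw' : w ^ d ≠ 0 := by
    intro h
    rw [← map_pow, h, map_zero, mul_zero] at hw0
    exact lt_irrefl _ hw0
  have e1 : ((u / w) ^ d - 1) * (a * w ^ d) = fu a b d u - fu a b d w := by
    unfold fu
    rw [div_pow]
    field_simp
    ring
  -- the size of the images
  set m := max (v (fu a b d u)) (v (fu a b d w)) with hm
  have hm0 : 0 ≤ m := (v.nonneg _).trans (le_max_left _ _)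
  have h1 : v (fu a b d u - fu a b d w) ≤ k * m := by
    rw [sub_eq_add_neg]
    refine (hadd _ _).trans ?_
    rw [v.map_neg]
  have h2 : v a * m ^ d ≤ k * v b := by
    rcases max_choice (v (fu a b d u)) (v (fu a b d w)) with h | h <;> rw [hm, h]
    · exact big_upper hk hadd hd hA1 hu.map
    · exact big_upper hk hadd hd hA1 hw.map
  have h3 : v ((u / w) ^ d - 1) * v b ≤ k ^ 2 * m := by
    have h4 : v ((u / w) ^ d - 1) * (v a * v w ^ d) ≤ k * m := by
      have h5 := congrArg v e1
      rw [map_mul, map_mul, map_pow] at h5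
      rw [h5]
      exact h1
    calc v ((u / w) ^ d - 1) * v b ≤ v ((u / w) ^ d - 1) * (k * (v a * v w ^ d)) := by
          have := v.nonneg ((u / w) ^ d - 1)
          gcongr
      _ = k * (v ((u / w) ^ d - 1) * (v a * v w ^ d)) := by ring
      _ ≤ k * (k * m) := by gcongr
      _ = _ := by ring
  have h4 : v ((u / w) ^ d - 1) ^ d * v (a * b ^ (d - 1)) * v b ≤ k ^ (3 * d) * v b := by
    calc v ((u / w) ^ d - 1) ^ d * v (a * b ^ (d - 1)) * v b
        = v a * (v ((u / w) ^ d - 1) * v b) ^ d := by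
          have e : v b ^ d = v b ^ (d - 1) * v b := by
            rw [← pow_succ, Nat.sub_add_cancel (by omega)]
          rw [hA2, mul_pow, e]; ring
      _ ≤ v a * (k ^ 2 * m) ^ d := by
          have := v.nonneg ((u / w) ^ d - 1)
          gcongr
      _ = k ^ (2 * d) * (v a * m ^ d) := by rw [mul_pow, ← pow_mul]; ring
      _ ≤ k ^ (2 * d) * (k * v b) := by gcongr
      _ = k ^ (2 * d + 1) * v b := by ring
      _ ≤ k ^ (3 * d) * v b := by
          gcongr
          omega
  exact le_of_mul_le_mul_right h4 hbpos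

end loc

end Pool.Agent.Zk42.UG
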