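import Pool.Agent.H437R2.Man.Phi

/-! Local repulsion on the curve `y² = s (s - a) (s - b) (s - c)`. -/

set_option autoImplicit false

namespace Pool.Agent.Zk42.UG

open Pool.Agent.H437R2.Man.Phi

section alg

variable {L : Type*} [Field L]

def cf (a b c s : L) : L := s * (s - a) * (s - b) * (s - c)

def cN (a b c s t : L) : L :=
  2 * s ^ 2 * t ^ 2 - (a + b + c) * (s * t * (s + t)) + 2 * (a * b + a * c + b * c) * (s * t) -
    a * b * c * (s + t)

def cM (a b c s t : L) : L :=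
  ((a + b + c) * (s * t) - a * b * c) ^ 2 - 4 * (a * b + a * c + b * c) * (s * t) ^ 2 +
    4 * (a * b * c) * (s * t) * (s + t)

/-- the `x`-coordinate of the difference of two points, up to a factor -/
def cG (a b c s y t z : L) : L := (cN a b c s t + 2 * (y * z)) / (s - t) ^ 2

lemma cNM (a b c s t : L) :
    cN a b c s t ^ 2 - 4 * (cf a b c s * cf a b c t) = cM a b c s t * (s - t) ^ 2 := by
  unfold cN cf cM; ring

lemma cG_shift (a b c : L) {s t : L} (hst : s ≠ t) (y z : L) :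
    cG (-a) (b - a) (c - a) (s - a) y (t - a) z = cG a b c s y t z + a * (b + c - a) := by
  have h : s - t ≠ 0 := sub_ne_zero.2 hst
  have h2 : s - a - (t - a) = s - t := by ring
  unfold cG
  rw [h2, div_add' _ _ _ (pow_ne_zero _ h)]
  congr 1
  unfold cN
  ring

lemma cf_shift (a b c s : L) : cf (-a) (b - a) (c - a) (s - a) = cf a b c s := by
  unfold cf; ring

lemma cG_perm1 (a b c s y t z : L) : cG b a c s y t z = cG a b c s y t z := by
  unfold cG cN
  congr 1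
  ring

lemma cG_perm2 (a b c s y t z : L) : cG c b a s y t z = cG a b c s y t z := by
  unfold cG cN
  congr 1
  ring

lemma cf_perm1 (a b c s : L) : cf b a c s = cf a b c s := by unfold cf; ring

lemma cf_perm2 (a b c s : L) : cf c b a s = cf a b c s := by unfold cf; ring

end alg

section loc

variable {L : Type} [Field L] {v : AbsoluteValue L ℝ} {D : ℝ}

lemma lower_of (hadd : ∀ x y, v (x + y) ≤ D * max (v x) (v y)) (hD : 1 ≤ D)
    {x x' : L} {n : ℕ} {r : ℝ} (h : 1 ≤ D ^ n * v x) (h' : v (x' - x) ≤ r)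
    (hr : D ^ (n + 1) * r < 1) : 1 ≤ D ^ (n + 1) * v x' := by
  have hD0 : 0 < D := by linarith
  have h1 := hadd x' (-(x' - x))
  have e : x' + -(x' - x) = x := by ring
  rw [e, v.map_neg] at h1
  have h2 : D ^ n * v x ≤ D ^ (n + 1) * max (v x') (v (x' - x)) := by
    calc D ^ n * v x ≤ D ^ n * (D * max (v x') (v (x' - x))) := by gcongr
      _ = _ := by ring
  rcases max_choice (v x') (v (x' - x)) with h3 | h3
  · rw [h3] at h2
    linarith
  · rw [h3] at h2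
    have h4 : D ^ (n + 1) * v (x' - x) ≤ D ^ (n + 1) * r := by gcongr
    linarith

lemma bd_sqrt {ε : ℝ} (hD : 1 ≤ D) (hε : 0 ≤ ε) {n e : ℕ} {y z A B : L} (hy : y ^ 2 = A)
    (hz : z ^ 2 = B) (hA : Bd v D ε n e A) (hB : Bd v D ε n e B) : Bd v D ε n e (y * z) := by
  unfold Bd at *
  have hD0 : 0 < D := by linarith
  have h1 : v (y * z) ^ 2 ≤ (D ^ n * ε ^ e) ^ 2 := by
    rw [← map_pow, mul_pow, hy, hz, map_mul, pow_two]
    exact mul_le_mul hA hB (v.nonneg _) (by positivity)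
  exact le_of_sq_le_sq h1 (by positivity)

/-- near the branch point `0` -/
lemma branch0 (hadd : ∀ x y, v (x + y) ≤ D * max (v x) (v y)) (hD : 1 ≤ D) {ε : ℝ} (hε : 0 ≤ ε)
    (hε1 : D ^ 17 * ε < 1) {a b c s y t z : L} (ha : v a ≤ D) (hb : v b ≤ D) (hc : v c ≤ D)
    (ha' : 1 ≤ D * v a) (hb' : 1 ≤ D * v b) (hc' : 1 ≤ D * v c) (hs : v s ≤ ε) (ht : v t ≤ ε)
    (hy : y ^ 2 = cf a b c s) (hz : z ^ 2 = cf a b c t) (hst : s ≠ t) :
    1 ≤ D ^ 16 * ε * v (cG a b c s y t z) := by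
  have hD0 : 0 < D := by linarith
  have hε1' : ε ≤ 1 := by
    have : ε ≤ D ^ 17 * ε := by
      calc ε = 1 * ε := (one_mul _).symm
        _ ≤ D ^ 17 * ε := by gcongr; exact one_le_pow₀ hD
    linarith
  have A : Bd v D ε 1 0 a := by simpa [Bd] using ha
  have B : Bd v D ε 1 0 b := by simpa [Bd] using hb
  have C : Bd v D ε 1 0 c := by simpa [Bd] using hc
  have S : Bd v D ε 0 1 s := by simpa [Bd] using hs
  have T : Bd v D ε 0 1 t := by simpa [Bd] using ht
  have S0 : Bd v D ε 0 0 s := by simpa [Bd] using hs.trans hε1'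
  have T0 : Bd v D ε 0 0 t := by simpa [Bd] using ht.trans hε1'
  have F2 : Bd v D ε 1 0 (2 : L) := by simpa [Bd] using two_le hadd
  have F4 : Bd v D ε 2 0 (4 : L) := by simpa [Bd] using four_le hD hadd
  have Q1 : Bd v D ε 3 0 (a + b + c) := (A.add hD hε hadd B).add hD hε hadd C
  have Q2 : Bd v D ε 4 0 (a * b + a * c + b * c) :=
    ((A.mul hD hε B).add hD hε hadd (A.mul hD hε C)).add hD hε hadd (B.mul hD hε C)
  have Q3 : Bd v D ε 3 0 (a * b * c) := (A.mul hD hε B).mul hD hε C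
  have f1 : ∀ {s : L}, Bd v D ε 0 1 s → Bd v D ε 0 0 s → Bd v D ε 6 1 (cf a b c s) := by
    intro s S S0
    exact ((S.mul hD hε (S0.sub hD hε hadd A)).mul hD hε (S0.sub hD hε hadd B)).mul hD hε
      (S0.sub hD hε hadd C)
  have YZ : Bd v D ε 6 1 (y * z) := bd_sqrt hD hε hy hz (f1 S S0) (f1 T T0)
  have hN : Bd v D ε 8 1 (cN a b c s t) := by
    have e : cN a b c s t = s * (2 * s * t ^ 2 - (a + b + c) * (t * (s + t)) +
        2 * (a * b + a * c + b * c) * t - a * b * c) - a * b * c * t := by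
      unfold cN; ring
    rw [e]
    have h1 : Bd v D ε 1 0 (2 * s * t ^ 2) := (F2.mul hD hε S0).mul hD hε (T0.pow hε 2)
    have h2 : Bd v D ε 4 0 ((a + b + c) * (t * (s + t))) :=
      Q1.mul hD hε (T0.mul hD hε (S0.add hD hε hadd T0))
    have h3 : Bd v D ε 5 0 (2 * (a * b + a * c + b * c) * t) := (F2.mul hD hε Q2).mul hD hε T0
    exact (S.mul hD hε (((h1.sub hD hε hadd h2).add hD hε hadd h3).sub hD hε hadd Q3)).sub hD hε
      hadd (Q3.mul hD hε T)
  have hW : Bd v D ε 9 1 (cN a b c s t - 2 * (y * z)) := hN.sub hD hε hadd (F2.mul hD hε YZ)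
  have hM : Bd v D ε 10 1 (cM a b c s t - (a * b * c) ^ 2) := by
    have e : cM a b c s t - (a * b * c) ^ 2 = s * t * ((a + b + c) ^ 2 * (s * t) -
        2 * ((a + b + c) * (a * b * c)) - 4 * (a * b + a * c + b * c) * (s * t) +
        4 * (a * b * c) * (s + t)) := by
      unfold cM; ring
    rw [e]
    have h0 : Bd v D ε 0 0 (s * t) := S0.mul hD hε T0
    have h1 : Bd v D ε 6 0 ((a + b + c) ^ 2 * (s * t)) := (Q1.pow hε 2).mul hD hε h0
    have h2 : Bd v D ε 7 0 (2 * ((a + b + c) * (a * b * c))) := F2.mul hD hε (Q1.mul hD hε Q3)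
    have h3 : Bd v D ε 6 0 (4 * (a * b + a * c + b * c) * (s * t)) :=
      (F4.mul hD hε Q2).mul hD hε h0
    have h4 : Bd v D ε 6 0 (4 * (a * b * c) * (s + t)) :=
      (F4.mul hD hε Q3).mul hD hε (S0.add hD hε hadd T0)
    exact (S.mul hD hε T0).mul hD hε
      (((h1.sub hD hε hadd h2).sub hD hε hadd h3).add hD hε hadd h4)
  have hq : 1 ≤ D ^ 6 * v ((a * b * c) ^ 2) := by
    have e : D ^ 6 * v ((a * b * c) ^ 2) = ((D * v a) * (D * v b) * (D * v c)) ^ 2 := by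
      rw [map_pow, map_mul, map_mul]; ring
    rw [e]
    exact one_le_pow₀ (one_le_mul_of_one_le_of_one_le (one_le_mul_of_one_le_of_one_le ha' hb') hc')
  have hM2 : 1 ≤ D ^ 7 * v (cM a b c s t) := by
    refine lower_of hadd hD (n := 6) (r := D ^ 10 * ε) hq ?_ ?_
    · simpa [Bd] using hM
    · calc D ^ 7 * (D ^ 10 * ε) = D ^ 17 * ε := by ring
        _ < 1 := hε1
  have hst' : s - t ≠ 0 := sub_ne_zero.2 hst
  have e : cG a b c s y t z * (cN a b c s t - 2 * (y * z)) = cM a b c s t := by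
    unfold cG
    have h1 := cNM a b c s t
    rw [← hy, ← hz] at h1
    field_simp
    linear_combination h1
  have h2 := congrArg v e
  rw [map_mul] at h2
  have hW' : v (cN a b c s t - 2 * (y * z)) ≤ D ^ 9 * ε := by simpa [Bd] using hW
  rw [← h2] at hM2
  calc 1 ≤ D ^ 7 * (v (cG a b c s y t z) * v (cN a b c s t - 2 * (y * z))) := hM2
    _ ≤ D ^ 7 * (v (cG a b c s y t z) * (D ^ 9 * ε)) := by
        have := v.nonneg (cG a b c s y t z)
        gcongr
    _ = _ := by ring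

/-- near the branch point `a` -/
lemma branch1 (hadd : ∀ x y, v (x + y) ≤ D * max (v x) (v y)) (hD : 1 ≤ D) {ε : ℝ} (hε : 0 ≤ ε)
    (hε1 : D ^ 21 * ε < 1) {a b c s y t z : L} (ha : v a ≤ D) (hb : v b ≤ D) (hc : v c ≤ D)
    (hab : v (b - a) ≤ D) (hac : v (c - a) ≤ D)
    (ha' : 1 ≤ D * v a) (hb' : 1 ≤ D * v (b - a)) (hc' : 1 ≤ D * v (c - a))
    (hs : v (s - a) ≤ ε) (ht : v (t - a) ≤ ε)
    (hy : y ^ 2 = cf a b c s) (hz : z ^ 2 = cf a b c t) (hst : s ≠ t) :
    1 ≤ D ^ 17 * ε * v (cG a b c s y t z) := by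
  have hD0 : 0 < D := by linarith
  have hst' : s - a ≠ t - a := fun h => hst (sub_left_injective h)
  have h1 := branch0 hadd hD hε (lt_of_le_of_lt (by gcongr; norm_num) hε1)
    (a := -a) (b := b - a) (c := c - a) (s := s - a) (t := t - a)
    (y := y) (z := z) (by rw [v.map_neg]; exact ha) hab hac (by rw [v.map_neg]; exact ha') hb' hc'
    hs ht (by rw [cf_shift]; exact hy) (by rw [cf_shift]; exact hz) hst'
  rw [cG_shift a b c hst] at h1
  have A : Bd v D ε 1 0 a := by simpa [Bd] using ha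
  have B : Bd v D ε 1 0 b := by simpa [Bd] using hb
  have C : Bd v D ε 1 0 c := by simpa [Bd] using hc
  have hl : v (a * (b + c - a)) ≤ D ^ 4 := by
    have : Bd v D ε 4 0 (a * (b + c - a)) :=
      A.mul hD hε ((B.add hD hε hadd C).sub hD hε hadd A)
    simpa [Bd] using this
  have h2 := hadd (cG a b c s y t z) (a * (b + c - a))
  rcases max_choice (v (cG a b c s y t z)) (v (a * (b + c - a))) with h3 | h3
  · rw [h3] at h2
    calc 1 ≤ D ^ 16 * ε * v (cG a b c s y t z + a * (b + c - a)) := h1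
      _ ≤ D ^ 16 * ε * (D * v (cG a b c s y t z)) := by gcongr
      _ = _ := by ring
  · exfalso
    rw [h3] at h2
    have : D ^ 16 * ε * v (cG a b c s y t z + a * (b + c - a)) ≤ D ^ 21 * ε := by
      calc _ ≤ D ^ 16 * ε * (D * v (a * (b + c - a))) := by gcongr
        _ ≤ D ^ 16 * ε * (D * D ^ 4) := by gcongr
        _ = _ := by ring
    linarith

/-- away from the branch points -/
lemma nonbranch (hadd : ∀ x y, v (x + y) ≤ D * max (v x) (v y)) (hD : 1 ≤ D) {ε : ℝ} (hε : 0 ≤ ε)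
    (hε1 : D ^ 56 * ε < 1) {a b c σ : L} (ha : v a ≤ D) (hb : v b ≤ D) (hc : v c ≤ D)
    (hσ : v σ ≤ D) (hσa : v (σ - a) ≤ D) (hσb : v (σ - b) ≤ D) (hσc : v (σ - c) ≤ D)
    (h2 : 1 ≤ D * v (2 : L)) (hσ' : 1 ≤ D * v σ) (hσa' : 1 ≤ D * v (σ - a))
    (hσb' : 1 ≤ D * v (σ - b)) (hσc' : 1 ≤ D * v (σ - c))
    {s₁ y₁ s₂ y₂ s₃ y₃ : L} (hs₁ : v (s₁ - σ) ≤ ε) (hs₂ : v (s₂ - σ) ≤ ε) (hs₃ : v (s₃ - σ) ≤ ε)
    (hy₁ : y₁ ^ 2 = cf a b c s₁) (hy₂ : y₂ ^ 2 = cf a b c s₂) (hy₃ : y₃ ^ 2 = cf a b c s₃)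
    (h12 : s₁ ≠ s₂) (h13 : s₁ ≠ s₃) (h23 : s₂ ≠ s₃) :
    1 ≤ D ^ 17 * ε * v (cG a b c s₁ y₁ s₂ y₂) ∨ 1 ≤ D ^ 17 * ε * v (cG a b c s₁ y₁ s₃ y₃) ∨
      1 ≤ D ^ 17 * ε * v (cG a b c s₂ y₂ s₃ y₃) := by
  have hD0 : 0 < D := by linarith
  have hpow : ∀ n : ℕ, n ≤ 56 → D ^ n * ε < 1 := fun n hn =>
    lt_of_le_of_lt (by gcongr) hε1
  have hε1' : ε ≤ 1 := by have := hpow 0 (by norm_num); linarith
  have A : Bd v D ε 1 0 a := by simpa [Bd] using ha
  have B : Bd v D ε 1 0 b := by simpa [Bd] using hb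
  have C : Bd v D ε 1 0 c := by simpa [Bd] using hc
  have G : Bd v D ε 1 0 σ := by simpa [Bd] using hσ
  have F2 : Bd v D ε 1 0 (2 : L) := by simpa [Bd] using two_le hadd
  have F4 : Bd v D ε 2 0 (4 : L) := by simpa [Bd] using four_le hD hadd
  have Q1 : Bd v D ε 3 0 (a + b + c) := (A.add hD hε hadd B).add hD hε hadd C
  have Q2 : Bd v D ε 4 0 (a * b + a * c + b * c) :=
    ((A.mul hD hε B).add hD hε hadd (A.mul hD hε C)).add hD hε hadd (B.mul hD hε C)
  have Q3 : Bd v D ε 3 0 (a * b * c) := (A.mul hD hε B).mul hD hε C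
  set φ := cf a b c σ with hφ
  have PH : Bd v D ε 4 0 φ := by
    have GA : Bd v D ε 1 0 (σ - a) := by simpa [Bd] using hσa
    have GB : Bd v D ε 1 0 (σ - b) := by simpa [Bd] using hσb
    have GC : Bd v D ε 1 0 (σ - c) := by simpa [Bd] using hσc
    exact ((G.mul hD hε GA).mul hD hε GB).mul hD hε GC
  have hφ1 : 1 ≤ D ^ 4 * v φ := by
    have e : D ^ 4 * v φ = (D * v σ) * (D * v (σ - a)) * (D * v (σ - b)) * (D * v (σ - c)) := by
      rw [hφ]
      unfold cf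
      rw [map_mul, map_mul, map_mul]; ring
    rw [e]
    exact one_le_mul_of_one_le_of_one_le (one_le_mul_of_one_le_of_one_le
      (one_le_mul_of_one_le_of_one_le hσ' hσa') hσb') hσc'
  -- one point
  have P1 : ∀ {s : L}, v (s - σ) ≤ ε → Bd v D ε 0 1 (s - σ) ∧ Bd v D ε 0 0 (s - σ) ∧
      Bd v D ε 2 0 s := by
    intro s hs
    have h0 : Bd v D ε 0 0 (s - σ) := by simpa [Bd] using hs.trans hε1'
    refine ⟨by simpa [Bd] using hs, h0, ?_⟩
    have := h0.add hD hε hadd G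
    rwa [sub_add_cancel] at this
  have P2 : ∀ {s : L} {e : ℕ}, Bd v D ε 0 e (s - σ) → Bd v D ε 2 0 s →
      Bd v D ε 12 e (cf a b c s - φ) := by
    intro s e hs S
    have e1 : cf a b c s - φ = (s - σ) * ((s ^ 3 + s ^ 2 * σ + s * σ ^ 2 + σ ^ 3) -
        (a + b + c) * (s ^ 2 + s * σ + σ ^ 2) + (a * b + a * c + b * c) * (s + σ) -
        a * b * c) := by
      rw [hφ]
      unfold cf; ring
    rw [e1]
    have S2 : Bd v D ε 4 0 (s ^ 2) := S.pow hε 2
    have S3 : Bd v D ε 6 0 (s ^ 3) := S.pow hε 3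
    have G2 : Bd v D ε 2 0 (σ ^ 2) := G.pow hε 2
    have G3 : Bd v D ε 3 0 (σ ^ 3) := G.pow hε 3
    have k1 : Bd v D ε 9 0 (s ^ 3 + s ^ 2 * σ + s * σ ^ 2 + σ ^ 3) :=
      ((S3.add hD hε hadd (S2.mul hD hε G)).add hD hε hadd (S.mul hD hε G2)).add hD hε hadd G3
    have k2 : Bd v D ε 6 0 (s ^ 2 + s * σ + σ ^ 2) :=
      (S2.add hD hε hadd (S.mul hD hε G)).add hD hε hadd G2
    have k3 : Bd v D ε 7 0 ((a * b + a * c + b * c) * (s + σ)) :=
      Q2.mul hD hε (S.add hD hε hadd G)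
    have := hs.mul hD hε (((k1.sub hD hε hadd (Q1.mul hD hε k2)).add hD hε hadd k3).sub hD hε
      hadd Q3)
    simpa using this
  have P3 : ∀ {s : L}, Bd v D ε 0 0 (s - σ) → Bd v D ε 2 0 s →
      Bd v D ε 13 0 (cf a b c s) := by
    intro s hs S
    have := (P2 hs S).add hD hε hadd PH
    rwa [sub_add_cancel] at this
  -- two points
  have P4 : ∀ {s y t z : L}, v (s - σ) ≤ ε → v (t - σ) ≤ ε → y ^ 2 = cf a b c s →
      z ^ 2 = cf a b c t → Bd v D ε 13 0 (y * z) ∧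
      (Bd v D ε 32 1 (y * z - φ) ∨ Bd v D ε 32 1 (y * z + φ)) := by
    intro s y t z hs ht hy hz
    obtain ⟨s1, s0, S⟩ := P1 hs
    obtain ⟨t1, t0, T⟩ := P1 ht
    have YZ : Bd v D ε 13 0 (y * z) := bd_sqrt hD hε hy hz (P3 s0 S) (P3 t0 T)
    refine ⟨YZ, ?_⟩
    have e1 : (y * z - φ) * (y * z + φ) = (cf a b c s - φ) * cf a b c t +
        φ * (cf a b c t - φ) := by
      rw [← hy, ← hz]; ring
    have PR : Bd v D ε 26 1 ((y * z - φ) * (y * z + φ)) := by
      rw [e1]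
      exact ((P2 s1 S).mul hD hε (P3 t0 T)).add hD hε hadd (PH.mul hD hε (P2 t1 T))
    have PR' : v (y * z - φ) * v (y * z + φ) ≤ D ^ 26 * ε := by
      rw [← map_mul]
      simpa [Bd] using PR
    have h3 : 1 ≤ D ^ 5 * v (2 * φ) := by
      calc 1 ≤ (D * v 2) * (D ^ 4 * v φ) := one_le_mul_of_one_le_of_one_le h2 hφ1
        _ = _ := by rw [map_mul]; ring
    have h4 := hadd (y * z + φ) (-(y * z - φ))
    have e2 : y * z + φ + -(y * z - φ) = 2 * φ := by ring
    rw [e2, v.map_neg] at h4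
    have h5 : 1 ≤ D ^ 6 * max (v (y * z + φ)) (v (y * z - φ)) := by
      calc 1 ≤ D ^ 5 * v (2 * φ) := h3
        _ ≤ D ^ 5 * (D * max (v (y * z + φ)) (v (y * z - φ))) := by gcongr
        _ = _ := by ring
    rcases max_choice (v (y * z + φ)) (v (y * z - φ)) with h6 | h6
    · rw [h6] at h5
      left
      show v (y * z - φ) ≤ D ^ 32 * ε ^ 1
      rw [pow_one]
      calc v (y * z - φ) = v (y * z - φ) * 1 := (mul_one _).symm
        _ ≤ v (y * z - φ) * (D ^ 6 * v (y * z + φ)) := by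
            have := v.nonneg (y * z - φ)
            gcongr
        _ = D ^ 6 * (v (y * z - φ) * v (y * z + φ)) := by ring
        _ ≤ D ^ 6 * (D ^ 26 * ε) := by gcongr
        _ = _ := by ring
    · rw [h6] at h5
      right
      show v (y * z + φ) ≤ D ^ 32 * ε ^ 1
      rw [pow_one]
      calc v (y * z + φ) = v (y * z + φ) * 1 := (mul_one _).symm
        _ ≤ v (y * z + φ) * (D ^ 6 * v (y * z - φ)) := by
            have := v.nonneg (y * z + φ)
            gcongr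
        _ = D ^ 6 * (v (y * z - φ) * v (y * z + φ)) := by ring
        _ ≤ D ^ 6 * (D ^ 26 * ε) := by gcongr
        _ = _ := by ring
  -- the good pair
  have P5 : ∀ {s y t z : L}, v (s - σ) ≤ ε → v (t - σ) ≤ ε → s ≠ t →
      Bd v D ε 32 1 (y * z - φ) → 1 ≤ D ^ 17 * ε * v (cG a b c s y t z) := by
    intro s y t z hs ht hst hyz
    obtain ⟨s1, s0, S⟩ := P1 hs
    obtain ⟨t1, t0, T⟩ := P1 ht
    have hN : Bd v D ε 13 1 (cN a b c s t - 2 * φ) := by
      have e : cN a b c s t - 2 * φ = (s - σ) * (2 * t ^ 2 * (s + σ) - (a + b + c) * (t *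
          (s + σ + t)) + 2 * (a * b + a * c + b * c) * t - a * b * c) +
          (t - σ) * (2 * σ ^ 2 * (t + σ) - (a + b + c) * (σ * (t + σ + σ)) +
          2 * (a * b + a * c + b * c) * σ - a * b * c) := by
        rw [hφ]
        unfold cN cf; ring
      rw [e]
      have SG : Bd v D ε 3 0 (s + σ) := S.add hD hε hadd G
      have TG : Bd v D ε 3 0 (t + σ) := T.add hD hε hadd G
      have k1 : Bd v D ε 8 0 (2 * t ^ 2 * (s + σ)) := (F2.mul hD hε (T.pow hε 2)).mul hD hε SG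
      have k2 : Bd v D ε 9 0 ((a + b + c) * (t * (s + σ + t))) :=
        Q1.mul hD hε (T.mul hD hε (SG.add hD hε hadd T))
      have k3 : Bd v D ε 7 0 (2 * (a * b + a * c + b * c) * t) :=
        (F2.mul hD hε Q2).mul hD hε T
      have k4 : Bd v D ε 12 0 (2 * t ^ 2 * (s + σ) - (a + b + c) * (t *
          (s + σ + t)) + 2 * (a * b + a * c + b * c) * t - a * b * c) :=
        ((k1.sub hD hε hadd k2).add hD hε hadd k3).sub hD hε hadd Q3
      have l1 : Bd v D ε 6 0 (2 * σ ^ 2 * (t + σ)) := (F2.mul hD hε (G.pow hε 2)).mul hD hε TG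
      have l2 : Bd v D ε 8 0 ((a + b + c) * (σ * (t + σ + σ))) :=
        Q1.mul hD hε (G.mul hD hε (TG.add hD hε hadd G))
      have l3 : Bd v D ε 6 0 (2 * (a * b + a * c + b * c) * σ) :=
        (F2.mul hD hε Q2).mul hD hε G
      have l4 : Bd v D ε 11 0 (2 * σ ^ 2 * (t + σ) - (a + b + c) * (σ * (t + σ + σ)) +
          2 * (a * b + a * c + b * c) * σ - a * b * c) :=
        ((l1.sub hD hε hadd l2).add hD hε hadd l3).sub hD hε hadd Q3
      exact (s1.mul hD hε k4).add hD hε hadd (t1.mul hD hε l4)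
    have hU : v (cN a b c s t + 2 * (y * z) - 4 * φ) ≤ D ^ 34 * ε := by
      have e : cN a b c s t + 2 * (y * z) - 4 * φ = (cN a b c s t - 2 * φ) +
          2 * (y * z - φ) := by ring
      rw [e]
      have : Bd v D ε 34 1 ((cN a b c s t - 2 * φ) + 2 * (y * z - φ)) :=
        hN.add hD hε hadd (F2.mul hD hε hyz)
      simpa [Bd] using this
    have h3 : 1 ≤ D ^ 6 * v (4 * φ) := by
      have e4 : (4 : L) = 2 * 2 := by norm_num
      calc 1 ≤ (D * v 2) * (D * v 2) * (D ^ 4 * v φ) :=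
            one_le_mul_of_one_le_of_one_le (one_le_mul_of_one_le_of_one_le h2 h2) hφ1
        _ = _ := by rw [e4, map_mul, map_mul]; ring
    have h4 : 1 ≤ D ^ 7 * v (cN a b c s t + 2 * (y * z)) := by
      refine lower_of hadd hD h3 hU ?_
      calc D ^ 7 * (D ^ 34 * ε) = D ^ 41 * ε := by ring
        _ < 1 := hpow 41 (by norm_num)
    have hst' : s - t ≠ 0 := sub_ne_zero.2 hst
    have e5 : cN a b c s t + 2 * (y * z) = cG a b c s y t z * (s - t) ^ 2 := by
      unfold cG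
      rw [div_mul_cancel₀ _ (pow_ne_zero _ hst')]
    have h5 : v (s - t) ≤ D * ε := by
      have h6 := hadd (s - σ) (-(t - σ))
      have e6 : s - σ + -(t - σ) = s - t := by ring
      rw [e6, v.map_neg] at h6
      exact h6.trans (by gcongr; exact max_le hs ht)
    rw [e5, map_mul, map_pow] at h4
    calc 1 ≤ D ^ 7 * (v (cG a b c s y t z) * v (s - t) ^ 2) := h4
      _ ≤ D ^ 7 * (v (cG a b c s y t z) * (D * ε) ^ 2) := by
          have := v.nonneg (cG a b c s y t z)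
          have := v.nonneg (s - t)
          gcongr
      _ = D ^ 9 * ε * v (cG a b c s y t z) * ε := by ring
      _ ≤ D ^ 9 * ε * v (cG a b c s y t z) * 1 := by
          have := v.nonneg (cG a b c s y t z)
          gcongr
      _ = D ^ 9 * ε * v (cG a b c s y t z) := mul_one _
      _ ≤ D ^ 17 * ε * v (cG a b c s y t z) := by
          have := v.nonneg (cG a b c s y t z)
          gcongr
          norm_num
  obtain ⟨B12, C12⟩ := P4 hs₁ hs₂ hy₁ hy₂
  obtain ⟨B13, C13⟩ := P4 hs₁ hs₃ hy₁ hy₃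
  obtain ⟨B23, C23⟩ := P4 hs₂ hs₃ hy₂ hy₃
  rcases C12 with c | C12
  · exact Or.inl (P5 hs₁ hs₂ h12 c)
  rcases C13 with c | C13
  · exact Or.inr (Or.inl (P5 hs₁ hs₃ h13 c))
  rcases C23 with c | C23
  · exact Or.inr (Or.inr (P5 hs₂ hs₃ h23 c))
  exfalso
  obtain ⟨s1, s0, S⟩ := P1 hs₁
  have e : 2 * φ ^ 2 = (cf a b c s₁ - φ) * (y₂ * y₃) + φ * (y₂ * y₃ + φ) -
      (y₁ * y₂ + φ) * (y₁ * y₃) + φ * (y₁ * y₃ + φ) := by
    rw [← hy₁]; ring
  have F : v (2 * φ ^ 2) ≤ D ^ 47 * ε := by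
    rw [e]
    have : Bd v D ε 47 1 ((cf a b c s₁ - φ) * (y₂ * y₃) + φ * (y₂ * y₃ + φ) -
        (y₁ * y₂ + φ) * (y₁ * y₃) + φ * (y₁ * y₃ + φ)) :=
      ((((P2 s1 S).mul hD hε B23).add hD hε hadd (PH.mul hD hε C23)).sub hD hε hadd
        (C12.mul hD hε B13)).add hD hε hadd (PH.mul hD hε C13)
    simpa [Bd] using this
  have h3 : 1 ≤ D ^ 9 * v (2 * φ ^ 2) := by
    calc 1 ≤ (D * v 2) * ((D ^ 4 * v φ) * (D ^ 4 * v φ)) :=
          one_le_mul_of_one_le_of_one_le h2 (one_le_mul_of_one_le_of_one_le hφ1 hφ1)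
      _ = _ := by rw [map_mul, map_pow]; ring
  have h4 : D ^ 9 * v (2 * φ ^ 2) ≤ D ^ 56 * ε := by
    calc D ^ 9 * v (2 * φ ^ 2) ≤ D ^ 9 * (D ^ 47 * ε) := by gcongr
      _ = _ := by ring
  linarith

end loc

end Pool.Agent.Zk42.UG
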