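import Pool.Agent.Zk42.UG.G1
import Pool.Agent.Zk42.UG.G3

/-! Local repulsion for the ratios of the preperiodic points. -/

set_option autoImplicit false

namespace Pool.Agent.Zk42.UG

open Pool.Agent.Zk42.UC Finset Polynomial Pool.Agent.H437R2.Man

section loc

variable {L : Type} [Field L] [DecidableEq L] {v : AbsoluteValue L ℝ} {D : ℝ} {d : ℕ} {μ : L}

/-- the nearest root of unity -/
lemma nearest (hadd : ∀ x y, v (x + y) ≤ D * max (v x) (v y)) (hD : 1 ≤ D)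
    (hμ : IsPrimitiveRoot μ d) (hd : 0 < d)
    (hr : ∀ ζ ζ' : L, ζ ^ d = 1 → ζ' ^ d = 1 → ζ ≠ ζ' → 1 ≤ D * v (ζ - ζ')) (t : L) :
    ∃ ζ : L, ζ ^ d = 1 ∧ v (t - ζ) ≤ D ^ (2 * d) * v (t ^ d - 1) := by
  have hD0 : 0 < D := by linarith
  obtain ⟨ζ, hζm, hmin⟩ := exists_min_image (nthRootsFinset d (1 : L)) (fun ζ => v (t - ζ))
    ⟨1, (mem_roots hd).2 (one_pow d)⟩
  have hζ := (mem_roots hd).1 hζm
  refine ⟨ζ, hζ, ?_⟩
  have h1 : ∀ ζ' ∈ (nthRootsFinset d (1 : L)).erase ζ, 1 ≤ D ^ 2 * v (t - ζ') := by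
    intro ζ' hζ'
    rw [mem_erase] at hζ'
    have h2 := hmin ζ' hζ'.2
    have h3 := hadd (t - ζ') (-(t - ζ))
    have e : t - ζ' + -(t - ζ) = ζ - ζ' := by ring
    rw [e, v.map_neg, max_eq_left h2] at h3
    calc 1 ≤ D * v (ζ - ζ') := hr ζ ζ' hζ ((mem_roots hd).1 hζ'.2) hζ'.1.symm
      _ ≤ D * (D * v (t - ζ')) := by gcongr
      _ = _ := by ring
  have h2 : 1 ≤ ∏ ζ' ∈ (nthRootsFinset d (1 : L)).erase ζ, D ^ 2 * v (t - ζ') :=
    prod_induction _ (fun x : ℝ => 1 ≤ x) (fun a b => one_le_mul_of_one_le_of_one_le) le_rfl h1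
  have h3 : v (t ^ d - 1) = v (t - ζ) *
      ∏ ζ' ∈ (nthRootsFinset d (1 : L)).erase ζ, v (t - ζ') := by
    have h4 := hμ.pow_sub_pow_eq_prod_sub_mul t 1 hd
    rw [one_pow] at h4
    rw [h4, map_prod, mul_prod_erase _ (fun ζ' => v (t - ζ')) hζm]
    apply prod_congr rfl
    intro ζ' _
    rw [mul_one]
  rw [prod_mul_distrib, prod_const] at h2
  have hc : ((nthRootsFinset d (1 : L)).erase ζ).card = d - 1 := by
    rw [card_erase_of_mem hζm, hμ.card_nthRootsFinset]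
  rw [hc, ← pow_mul] at h2
  have hp : 0 ≤ ∏ ζ' ∈ (nthRootsFinset d (1 : L)).erase ζ, v (t - ζ') :=
    prod_nonneg fun _ _ => v.nonneg _
  have h0 := v.nonneg (t - ζ)
  calc v (t - ζ) = v (t - ζ) * 1 := (mul_one _).symm
    _ ≤ v (t - ζ) * (D ^ (2 * (d - 1)) *
        ∏ ζ' ∈ (nthRootsFinset d (1 : L)).erase ζ, v (t - ζ')) := by gcongr
    _ ≤ v (t - ζ) * (D ^ (2 * d) *
        ∏ ζ' ∈ (nthRootsFinset d (1 : L)).erase ζ, v (t - ζ')) := by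
        gcongr
        omega
    _ = _ := by rw [h3]; ring

/-- the quartic -/
def f4 (z₁ z₂ z₃ z₄ t : L) : L := cf (z₁ - z₄) (z₂ - z₄) (z₃ - z₄) (t - z₄)

/-- the coordinate of the difference -/
def G4 (z₁ z₂ z₃ z₄ t y t' y' : L) : L :=
  cG (z₁ - z₄) (z₂ - z₄) (z₃ - z₄) (t - z₄) y (t' - z₄) y'

/-- two of the points repel -/
lemma local_pair (hadd : ∀ x y, v (x + y) ≤ D * max (v x) (v y)) (hD : 1 ≤ D)
    (hμ : IsPrimitiveRoot μ d) (hd : 0 < d) (h2 : 1 ≤ D * v (2 : L))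
    (hr : ∀ ζ ζ' : L, ζ ^ d = 1 → ζ' ^ d = 1 → ζ ≠ ζ' → 1 ≤ D * v (ζ - ζ'))
    (hr' : ∀ ζ ζ' : L, ζ ^ d = 1 → ζ' ^ d = 1 → v (ζ - ζ') ≤ D)
    {z₁ z₂ z₃ z₄ : L} (hz₁ : z₁ ^ d = 1) (hz₂ : z₂ ^ d = 1) (hz₃ : z₃ ^ d = 1) (hz₄ : z₄ ^ d = 1)
    (n12 : z₁ ≠ z₂) (n13 : z₁ ≠ z₃) (n14 : z₁ ≠ z₄) (n23 : z₂ ≠ z₃) (n24 : z₂ ≠ z₄)
    (n34 : z₃ ≠ z₄) {Y : Finset L} (hY : 2 * d < Y.card) {y : L → L}
    (hy : ∀ t ∈ Y, y t ^ 2 = f4 z₁ z₂ z₃ z₄ t) {α : ℝ} (hα : 0 < α)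
    (hYα : ∀ t ∈ Y, v (t ^ d - 1) * α ≤ D ^ 3) :
    α ≤ D ^ (2 * d + 59) ∨ ∃ t ∈ Y, ∃ t' ∈ Y, t ≠ t' ∧
      α ≤ D ^ (2 * d + 59) * v (G4 z₁ z₂ z₃ z₄ t (y t) t' (y t')) := by
  have hD0 : 0 < D := by linarith
  set ε : ℝ := D ^ (2 * d + 3) / α with hε
  have hε0 : 0 ≤ ε := by positivity
  rcases le_or_gt 1 (D ^ 56 * ε) with hc | hc
  · left
    rw [hε, ← mul_div_assoc, le_div_iff₀ hα, one_mul, ← pow_add] at hc
    refine hc.trans (pow_le_pow_right₀ hD (by omega))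
  right
  have hroot : ∀ t ∈ Y, ∃ ζ : L, ζ ^ d = 1 ∧ v (t - ζ) ≤ ε := by
    intro t ht
    obtain ⟨ζ, hζ, h⟩ := nearest hadd hD hμ hd hr t
    refine ⟨ζ, hζ, h.trans ?_⟩
    rw [hε, le_div_iff₀ hα]
    calc D ^ (2 * d) * v (t ^ d - 1) * α = D ^ (2 * d) * (v (t ^ d - 1) * α) := by ring
      _ ≤ D ^ (2 * d) * D ^ 3 := by gcongr; exact hYα t ht
      _ = _ := by ring
  choose! g hg1 hg2 using hroot
  obtain ⟨ζ, hζm, hfib⟩ := exists_lt_card_fiber_of_mul_lt_card_of_maps_to (s := Y)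
    (t := nthRootsFinset d (1 : L)) (f := g) (n := 2)
    (fun t ht => (mem_roots hd).2 (hg1 t ht)) (by
      rw [hμ.card_nthRootsFinset]
      omega)
  have hζ := (mem_roots hd).1 hζm
  obtain ⟨t₁, m₁, t₂, m₂, t₃, m₃, m12, m13, m23⟩ := two_lt_card.1 hfib
  rw [mem_filter] at m₁ m₂ m₃
  obtain ⟨m₁, e₁⟩ := m₁
  obtain ⟨m₂, e₂⟩ := m₂
  obtain ⟨m₃, e₃⟩ := m₃
  have b₁ : v (t₁ - ζ) ≤ ε := e₁ ▸ hg2 t₁ m₁
  have b₂ : v (t₂ - ζ) ≤ ε := e₂ ▸ hg2 t₂ m₂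
  have b₃ : v (t₃ - ζ) ≤ ε := e₃ ▸ hg2 t₃ m₃
  have fin : ∀ {t t' : L}, t ∈ Y → t' ∈ Y → t ≠ t' →
      1 ≤ D ^ 17 * ε * v (G4 z₁ z₂ z₃ z₄ t (y t) t' (y t')) →
      ∃ t ∈ Y, ∃ t' ∈ Y, t ≠ t' ∧
      α ≤ D ^ (2 * d + 59) * v (G4 z₁ z₂ z₃ z₄ t (y t) t' (y t')) := by
    intro t t' ht ht' hne h
    refine ⟨t, ht, t', ht', hne, ?_⟩
    have e : D ^ 17 * ε * v (G4 z₁ z₂ z₃ z₄ t (y t) t' (y t')) =
        (D ^ (2 * d + 20) * v (G4 z₁ z₂ z₃ z₄ t (y t) t' (y t'))) / α := by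
      rw [hε]; ring
    rw [e, le_div_iff₀ hα, one_mul] at h
    refine h.trans ?_
    have := v.nonneg (G4 z₁ z₂ z₃ z₄ t (y t) t' (y t'))
    gcongr
    norm_num
  have hpow : ∀ n : ℕ, n ≤ 56 → D ^ n * ε < 1 := fun n hn =>
    lt_of_le_of_lt (by gcongr) hc
  have sub4 : ∀ {x y : L}, x - z₄ - (y - z₄) = x - y := fun {x y} => by ring
  have s12 : t₁ - z₄ ≠ t₂ - z₄ := fun h => m12 (sub_left_injective h)
  have s13 : t₁ - z₄ ≠ t₃ - z₄ := fun h => m13 (sub_left_injective h)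
  have s23 : t₂ - z₄ ≠ t₃ - z₄ := fun h => m23 (sub_left_injective h)
  by_cases c4 : ζ = z₄
  · subst c4
    refine fin m₁ m₂ m12 ?_
    have := branch0 hadd hD hε0 (hpow 17 (by norm_num)) (hr' z₁ ζ hz₁ hz₄) (hr' z₂ ζ hz₂ hz₄)
      (hr' z₃ ζ hz₃ hz₄) (hr z₁ ζ hz₁ hz₄ n14) (hr z₂ ζ hz₂ hz₄ n24) (hr z₃ ζ hz₃ hz₄ n34)
      b₁ b₂ (hy t₁ m₁) (hy t₂ m₂) s12
    refine this.trans ?_
    have h0 := v.nonneg (cG (z₁ - ζ) (z₂ - ζ) (z₃ - ζ) (t₁ - ζ) (y t₁) (t₂ - ζ) (y t₂))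
    unfold G4
    gcongr
    norm_num
  by_cases c1 : ζ = z₁
  · subst c1
    refine fin m₁ m₂ m12 ?_
    exact branch1 hadd hD hε0 (hpow 21 (by norm_num)) (hr' ζ z₄ hz₁ hz₄) (hr' z₂ z₄ hz₂ hz₄)
      (hr' z₃ z₄ hz₃ hz₄) (by rw [sub4]; exact hr' z₂ ζ hz₂ hz₁)
      (by rw [sub4]; exact hr' z₃ ζ hz₃ hz₁) (hr ζ z₄ hz₁ hz₄ n14)
      (by rw [sub4]; exact hr z₂ ζ hz₂ hz₁ n12.symm) (by rw [sub4]; exact hr z₃ ζ hz₃ hz₁ n13.symm)
      (by rw [sub4]; exact b₁) (by rw [sub4]; exact b₂) (hy t₁ m₁) (hy t₂ m₂) s12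
  by_cases c2 : ζ = z₂
  · subst c2
    refine fin m₁ m₂ m12 ?_
    unfold G4
    rw [← cG_perm1]
    exact branch1 hadd hD hε0 (hpow 21 (by norm_num)) (hr' ζ z₄ hz₂ hz₄) (hr' z₁ z₄ hz₁ hz₄)
      (hr' z₃ z₄ hz₃ hz₄) (by rw [sub4]; exact hr' z₁ ζ hz₁ hz₂)
      (by rw [sub4]; exact hr' z₃ ζ hz₃ hz₂) (hr ζ z₄ hz₂ hz₄ n24)
      (by rw [sub4]; exact hr z₁ ζ hz₁ hz₂ n12) (by rw [sub4]; exact hr z₃ ζ hz₃ hz₂ n23.symm)
      (by rw [sub4]; exact b₁) (by rw [sub4]; exact b₂) (by rw [cf_perm1]; exact hy t₁ m₁)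
      (by rw [cf_perm1]; exact hy t₂ m₂) s12
  by_cases c3 : ζ = z₃
  · subst c3
    refine fin m₁ m₂ m12 ?_
    unfold G4
    rw [← cG_perm2]
    exact branch1 hadd hD hε0 (hpow 21 (by norm_num)) (hr' ζ z₄ hz₃ hz₄) (hr' z₂ z₄ hz₂ hz₄)
      (hr' z₁ z₄ hz₁ hz₄) (by rw [sub4]; exact hr' z₂ ζ hz₂ hz₃)
      (by rw [sub4]; exact hr' z₁ ζ hz₁ hz₃) (hr ζ z₄ hz₃ hz₄ n34)
      (by rw [sub4]; exact hr z₂ ζ hz₂ hz₃ n23) (by rw [sub4]; exact hr z₁ ζ hz₁ hz₃ n13)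
      (by rw [sub4]; exact b₁) (by rw [sub4]; exact b₂) (by rw [cf_perm2]; exact hy t₁ m₁)
      (by rw [cf_perm2]; exact hy t₂ m₂) s12
  have key := nonbranch hadd hD hε0 hc (σ := ζ - z₄) (hr' z₁ z₄ hz₁ hz₄) (hr' z₂ z₄ hz₂ hz₄)
    (hr' z₃ z₄ hz₃ hz₄) (hr' ζ z₄ hζ hz₄) (by rw [sub4]; exact hr' ζ z₁ hζ hz₁)
    (by rw [sub4]; exact hr' ζ z₂ hζ hz₂) (by rw [sub4]; exact hr' ζ z₃ hζ hz₃) h2
    (hr ζ z₄ hζ hz₄ c4) (by rw [sub4]; exact hr ζ z₁ hζ hz₁ c1)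
    (by rw [sub4]; exact hr ζ z₂ hζ hz₂ c2) (by rw [sub4]; exact hr ζ z₃ hζ hz₃ c3)
    (by rw [sub4]; exact b₁) (by rw [sub4]; exact b₂) (by rw [sub4]; exact b₃)
    (hy t₁ m₁) (hy t₂ m₂) (hy t₃ m₃) s12 s13 s23
  rcases key with h | h | h
  · exact fin m₁ m₂ m12 h
  · exact fin m₁ m₃ m13 h
  · exact fin m₂ m₃ m23 h

/-- logarithmic form for the ratios of preperiodic points -/
lemma local_log [NumberField L] {k : ℝ} (hk : 1 ≤ k) (hkD : k ≤ D)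
    (hadd : ∀ x y, v (x + y) ≤ k * max (v x) (v y))
    (hμ : IsPrimitiveRoot μ d) (hd : 2 ≤ d) (h2 : 1 ≤ D * v (2 : L))
    (hr : ∀ ζ ζ' : L, ζ ^ d = 1 → ζ' ^ d = 1 → ζ ≠ ζ' → 1 ≤ D * v (ζ - ζ'))
    (hr' : ∀ ζ ζ' : L, ζ ^ d = 1 → ζ' ^ d = 1 → v (ζ - ζ') ≤ D)
    {z₁ z₂ z₃ z₄ : L} (hz₁ : z₁ ^ d = 1) (hz₂ : z₂ ^ d = 1) (hz₃ : z₃ ^ d = 1) (hz₄ : z₄ ^ d = 1)
    (n12 : z₁ ≠ z₂) (n13 : z₁ ≠ z₃) (n14 : z₁ ≠ z₄) (n23 : z₂ ≠ z₃) (n24 : z₂ ≠ z₄)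
    (n34 : z₃ ≠ z₄) {Y : Finset L} (hY : 2 * d < Y.card) {y : L → L}
    (hy : ∀ t ∈ Y, y t ^ 2 = f4 z₁ z₂ z₃ z₄ t) {a b w : L} (hw : PP (fu a b d) w)
    (hYw : ∀ t ∈ Y, ∃ u : L, PP (fu a b d) u ∧ t = u / w) :
    (1 / d : ℝ) * lx (a * b ^ (d - 1)) v ≤ (2 * d + 59 : ℕ) * Real.log D +
      ∑ p ∈ Y.offDiag, lx (G4 z₁ z₂ z₃ z₄ p.1 (y p.1) p.2 (y p.2)) v := by
  have hD : 1 ≤ D := hk.trans hkD
  have hD0 : 0 < D := by linarith
  have hk0 : 0 < k := by linarith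
  have hlk : 0 ≤ Real.log k := Real.log_nonneg hk
  have hlD : 0 ≤ Real.log D := Real.log_nonneg hD
  have hlkD : Real.log k ≤ Real.log D := Real.log_le_log hk0 hkD
  have hd0 : (0 : ℝ) < d := by
    have : 0 < d := by omega
    exact_mod_cast this
  have hsum : 0 ≤ ∑ p ∈ Y.offDiag, lx (G4 z₁ z₂ z₃ z₄ p.1 (y p.1) p.2 (y p.2)) v :=
    sum_nonneg fun p _ => lx_nonneg _ _
  set A := v (a * b ^ (d - 1)) with hA
  rcases le_or_gt A (k ^ (d + 1)) with hc | hc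
  · have h1 : lx (a * b ^ (d - 1)) v ≤ (d + 1) * Real.log k := by
      unfold lx
      rw [← hA]
      have h3 : max A 1 ≤ k ^ (d + 1) := max_le hc (one_le_pow₀ hk)
      have h4 := Real.log_le_log (lt_of_lt_of_le one_pos (le_max_right A 1)) h3
      rw [Real.log_pow] at h4
      push_cast at h4
      exact h4
    have h5 : (1 / d : ℝ) * lx (a * b ^ (d - 1)) v ≤ (2 * d + 59 : ℕ) * Real.log D := by
      have h6 : (1 / d : ℝ) ≤ 1 := by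
        rw [div_le_one hd0]
        have : 1 ≤ d := by omega
        exact_mod_cast this
      have h7 : 0 ≤ lx (a * b ^ (d - 1)) v := lx_nonneg _ _
      have h8 : (0 : ℝ) ≤ 1 / d := by positivity
      calc (1 / d : ℝ) * lx (a * b ^ (d - 1)) v ≤ 1 * ((d + 1) * Real.log k) := by gcongr
        _ ≤ (2 * d + 59 : ℕ) * Real.log D := by
            rw [one_mul]
            push_cast
            gcongr
            · linarith
            · norm_num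
    linarith
  have hA0 : 0 < A := lt_of_le_of_lt (by positivity) hc
  have hA1 : 1 < A := lt_of_le_of_lt (one_le_pow₀ hk) hc
  have haddD : ∀ x y, v (x + y) ≤ D * max (v x) (v y) := fun x y =>
    (hadd x y).trans (by
      have := (v.nonneg x).trans (le_max_left (v x) (v y))
      gcongr)
  set α : ℝ := A ^ (1 / d : ℝ) with hα
  have hα0 : 0 < α := Real.rpow_pos_of_pos hA0 _
  have hαd : α ^ d = A := by
    rw [hα, ← Real.rpow_natCast, ← Real.rpow_mul hA0.le, one_div_mul_cancel hd0.ne',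
      Real.rpow_one]
  have hlα : Real.log α = (1 / d : ℝ) * Real.log A := Real.log_rpow hA0 _
  have hYα : ∀ t ∈ Y, v (t ^ d - 1) * α ≤ D ^ 3 := by
    intro t ht
    obtain ⟨u, hu, rfl⟩ := hYw t ht
    have h1 := near hk hadd hd hc hu hw
    rw [← hA, ← hαd, ← mul_pow, pow_mul] at h1
    have h0 := v.nonneg ((u / w) ^ d - 1)
    have h3 := (pow_le_pow_iff_left₀ (by positivity) (by positivity) (by omega)).1 h1
    exact h3.trans (by gcongr)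
  have hlA : lx (a * b ^ (d - 1)) v = Real.log A := by
    unfold lx
    rw [← hA, max_eq_left hA1.le]
  rw [hlA, ← hlα]
  rcases local_pair haddD hD hμ (by omega) h2 hr hr' hz₁ hz₂ hz₃ hz₄ n12 n13 n14 n23 n24 n34 hY hy
    hα0 hYα with h | ⟨t, ht, t', ht', hne, h⟩
  · have h1 := Real.log_le_log hα0 h
    rw [Real.log_pow] at h1
    linarith
  · have h1 : α ≤ D ^ (2 * d + 59) * max (v (G4 z₁ z₂ z₃ z₄ t (y t) t' (y t'))) 1 :=
      h.trans (by gcongr; exact le_max_left _ _)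
    have h3 : (0 : ℝ) < max (v (G4 z₁ z₂ z₃ z₄ t (y t) t' (y t'))) 1 :=
      lt_of_lt_of_le one_pos (le_max_right _ _)
    have h4 := Real.log_le_log hα0 h1
    rw [Real.log_mul (by positivity) h3.ne', Real.log_pow] at h4
    refine h4.trans ?_
    gcongr
    have h5 : (t, t') ∈ Y.offDiag := mem_offDiag.2 ⟨ht, ht', hne⟩
    have h6 := single_le_sum (s := Y.offDiag)
      (f := fun p : L × L => lx (G4 z₁ z₂ z₃ z₄ p.1 (y p.1) p.2 (y p.2)) v)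
      (fun p _ => lx_nonneg _ _) h5
    exact h6

end loc

section glob

open Height Height.AdmissibleAbsValues

variable {L : Type} [Field L] [NumberField L]

lemma FS_zero : FS (fun _ : AbsoluteValue L ℝ => (0 : ℝ)) := by
  unfold FS
  have : (Function.support fun v : (nonarchAbsVal : Set (AbsoluteValue L ℝ)) => (0 : ℝ)) = ∅ := by
    ext v
    simp
  rw [this]
  exact Set.finite_empty

lemma gs_zero : gs (fun _ : AbsoluteValue L ℝ => (0 : ℝ)) = 0 := by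
  unfold gs
  simp

lemma FS_sum {ι : Type*} (s : Finset ι) (f : ι → AbsoluteValue L ℝ → ℝ) (hf : ∀ i ∈ s, FS (f i)) :
    FS (fun v => ∑ i ∈ s, f i v) ∧ gs (fun v => ∑ i ∈ s, f i v) = ∑ i ∈ s, gs (f i) := by
  classical
  induction s using Finset.induction_on with
  | empty =>
    simp only [sum_empty]
    exact ⟨FS_zero, gs_zero⟩
  | insert i s hi ih =>
    obtain ⟨h1, h2⟩ := ih fun j hj => hf j (mem_insert_of_mem hj)
    have h3 := hf i (mem_insert_self i s)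
    simp only [sum_insert hi]
    exact ⟨h3.add h1, by rw [gs_add h3 h1, h2]⟩

variable [DecidableEq L]

/-- the fixed numbers -/
noncomputable def EE (L : Type) [Field L] [DecidableEq L] (d : ℕ) : Finset L :=
  insert 2 (((nthRootsFinset d (1 : L)) ×ˢ (nthRootsFinset d (1 : L))).image fun p => p.1 - p.2)

/-- the error term -/
noncomputable def WW (d : ℕ) (v : AbsoluteValue L ℝ) : ℝ :=
  ∑ z ∈ EE L d, (lx z v + lx z⁻¹ v)

lemma WW_nonneg (d : ℕ) (v : AbsoluteValue L ℝ) : 0 ≤ WW d v :=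
  sum_nonneg fun _ _ => add_nonneg (lx_nonneg _ _) (lx_nonneg _ _)

lemma FS_WW (d : ℕ) : FS (WW (L := L) d) :=
  (FS_sum _ _ fun z _ => (FS_lx z).add (FS_lx z⁻¹)).1

lemma le_DD {d : ℕ} {v : AbsoluteValue L ℝ} {k : ℝ} (hk : 1 ≤ k) {z : L} (hz : z ∈ EE L d) :
    v z ≤ k * Real.exp (WW d v) ∧ (z ≠ 0 → 1 ≤ k * Real.exp (WW d v) * v z) := by
  have h1 : ∀ x : L, lx x v ≤ WW d v → v x ≤ k * Real.exp (WW d v) := by
    intro x hx
    have h2 : v x ≤ Real.exp (lx x v) := by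
      unfold lx
      rw [Real.exp_log (lt_of_lt_of_le one_pos (le_max_right _ _))]
      exact le_max_left _ _
    calc v x ≤ Real.exp (WW d v) := h2.trans (Real.exp_le_exp.2 hx)
      _ = 1 * Real.exp (WW d v) := (one_mul _).symm
      _ ≤ _ := by gcongr
  have h2 : lx z v + lx z⁻¹ v ≤ WW d v :=
    single_le_sum (f := fun z : L => lx z v + lx z⁻¹ v)
      (fun z _ => add_nonneg (lx_nonneg z v) (lx_nonneg z⁻¹ v)) hz
  have h3 := lx_nonneg z v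
  have h4 := lx_nonneg z⁻¹ v
  refine ⟨h1 z (by linarith), fun hz0 => ?_⟩
  have h5 := h1 z⁻¹ (by linarith)
  have h6 : 0 < v z := v.pos hz0
  calc 1 = v z⁻¹ * v z := by rw [← map_mul, inv_mul_cancel₀ hz0, map_one]
    _ ≤ _ := by gcongr

/-- the gap principle: among `2 d + 1` ratios two are far from each other -/
theorem gap {d : ℕ} {μ : L} (hμ : IsPrimitiveRoot μ d) (hd : 2 ≤ d)
    {z₁ z₂ z₃ z₄ : L} (hz₁ : z₁ ^ d = 1) (hz₂ : z₂ ^ d = 1) (hz₃ : z₃ ^ d = 1) (hz₄ : z₄ ^ d = 1)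
    (n12 : z₁ ≠ z₂) (n13 : z₁ ≠ z₃) (n14 : z₁ ≠ z₄) (n23 : z₂ ≠ z₃) (n24 : z₂ ≠ z₄)
    (n34 : z₃ ≠ z₄) :
    ∃ C : ℝ, ∀ (Y : Finset L), 2 * d < Y.card → ∀ y : L → L,
      (∀ t ∈ Y, y t ^ 2 = f4 z₁ z₂ z₃ z₄ t) → ∀ a b w : L, PP (fu a b d) w →
      (∀ t ∈ Y, ∃ u : L, PP (fu a b d) u ∧ t = u / w) →
      (1 / d : ℝ) * logHeight₁ (a * b ^ (d - 1)) ≤ C +
        ∑ p ∈ Y.offDiag, logHeight₁ (G4 z₁ z₂ z₃ z₄ p.1 (y p.1) p.2 (y p.2)) := by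
  refine ⟨(2 * d + 59 : ℕ) * gs (WW (L := L) d) + totalWeight L * ((2 * d + 59 : ℕ) * Real.log 2),
    ?_⟩
  intro Y hY y hy a b w hw hYw
  have main : ∀ (v : AbsoluteValue L ℝ) (k : ℝ), 1 ≤ k →
      (∀ x y, v (x + y) ≤ k * max (v x) (v y)) →
      (1 / d : ℝ) * lx (a * b ^ (d - 1)) v ≤ (2 * d + 59 : ℕ) * (Real.log k + WW d v) +
      ∑ p ∈ Y.offDiag, lx (G4 z₁ z₂ z₃ z₄ p.1 (y p.1) p.2 (y p.2)) v := by
    intro v k hk hadd
    have hk0 : 0 < k := by linarith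
    have e : Real.log (k * Real.exp (WW d v)) = Real.log k + WW d v := by
      rw [Real.log_mul hk0.ne' (Real.exp_pos _).ne', Real.log_exp]
    rw [← e]
    have hin : ∀ ζ ζ' : L, ζ ^ d = 1 → ζ' ^ d = 1 → ζ - ζ' ∈ EE L d := by
      intro ζ ζ' h h'
      unfold EE
      refine mem_insert_of_mem (mem_image.2 ⟨(ζ, ζ'), mem_product.2
        ⟨(UC.mem_roots (by omega)).2 h, (UC.mem_roots (by omega)).2 h'⟩, rfl⟩)
    refine local_log hk ?_ hadd hμ hd ?_ ?_ ?_ hz₁ hz₂ hz₃ hz₄ n12 n13 n14 n23 n24 n34 hY hy hw hYw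
    · calc k = k * 1 := (mul_one k).symm
        _ ≤ _ := by
          gcongr
          exact Real.one_le_exp (WW_nonneg d v)
    · exact (le_DD hk (mem_insert_self _ _)).2 two_ne_zero
    · intro ζ ζ' h h' hne
      exact (le_DD hk (hin ζ ζ' h h')).2 (sub_ne_zero.2 hne)
    · intro ζ ζ' h h'
      exact (le_DD hk (hin ζ ζ' h h')).1
  obtain ⟨F1, G1⟩ := FS_sum Y.offDiag
    (fun p v => lx (G4 z₁ z₂ z₃ z₄ p.1 (y p.1) p.2 (y p.2)) v) (fun p _ => FS_lx _)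
  have F2 := (FS_WW (L := L) d).const_mul (2 * d + 59 : ℕ)
  have F3 := (FS_lx (a * b ^ (d - 1))).const_mul (1 / d : ℝ)
  have key := gs_le F3 (F2.add F1) ((2 * d + 59 : ℕ) * Real.log 2) ?_ ?_
  · rw [gs_const_mul _ (FS_lx _), gs_add F2 F1, gs_const_mul _ (FS_WW d), gs_lx, G1] at key
    simp only [gs_lx] at key
    linarith
  · intro v hv
    have := main v 2 (by norm_num) (fun x y => by
      refine (v.add_le x y).trans ?_
      have := le_max_left (v x) (v y)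
      have := le_max_right (v x) (v y)
      linarith)
    rw [mul_add] at this
    linarith
  · intro v hv
    have := main v 1 le_rfl (fun x y => by
      rw [one_mul]
      exact isNonarchimedean v hv x y)
    rw [Real.log_one, zero_add] at this
    exact this

omit [DecidableEq L] in
/-- the height of the ratios -/
theorem height_ratio {d : ℕ} (hd : 2 ≤ d) :
    ∃ C : ℝ, ∀ a b u w : L, a ≠ 0 → w ≠ 0 → PP (fu a b d) u → PP (fu a b d) w →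
      ((d * (d - 1) : ℕ) : ℝ) * logHeight₁ (u / w) ≤ logHeight₁ (a * b ^ (d - 1)) + C := by
  refine ⟨totalWeight L * (d * Real.log 2), ?_⟩
  intro a b u w ha hw0 hu hw
  have main : ∀ (v : AbsoluteValue L ℝ) (k : ℝ), 1 ≤ k →
      (∀ x y, v (x + y) ≤ k * max (v x) (v y)) →
      ((d * (d - 1) : ℕ) : ℝ) * Real.log (max (v u) (v w)) + d * Real.log (v a) ≤
        lx (a * b ^ (d - 1)) v + d * Real.log k := by
    intro v k hk hadd
    have hk0 : 0 < k := by linarith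
    have hva : 0 < v a := v.pos ha
    have hvw : 0 < v w := v.pos hw0
    have hm : 0 < max (v u) (v w) := lt_of_lt_of_le hvw (le_max_right _ _)
    have h1 : max (v u) (v w) ^ (d * (d - 1)) * v a ^ d ≤
        k ^ d * max (v (a * b ^ (d - 1))) 1 := by
      rcases max_choice (v u) (v w) with h | h <;> rw [h]
      · exact hbound hk hadd hd hu
      · exact hbound hk hadd hd hw
    have h2 := Real.log_le_log (by positivity) h1
    have h3 : (0 : ℝ) < max (v (a * b ^ (d - 1))) 1 := lt_of_lt_of_le one_pos (le_max_right _ _)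
    rw [Real.log_mul (by positivity) (by positivity), Real.log_mul (by positivity) h3.ne',
      Real.log_pow, Real.log_pow, Real.log_pow] at h2
    unfold lx
    linarith
  obtain ⟨F1, G1⟩ := gs_pair (x := u) hw0 (fun v => Real.log (max (v u) (v w))) (fun v => rfl)
  have F2 := FS_log ha
  have key := gs_le ((F1.const_mul ((d * (d - 1) : ℕ) : ℝ)).add (F2.const_mul (d : ℝ)))
    (FS_lx (a * b ^ (d - 1))) (d * Real.log 2) ?_ ?_
  · rw [gs_add (F1.const_mul _) (F2.const_mul _), gs_const_mul _ F1, gs_const_mul _ F2,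
      gs_log ha, gs_lx, G1] at key
    linarith
  · intro v hv
    exact main v 2 (by norm_num) (fun x y => by
      refine (v.add_le x y).trans ?_
      have := le_max_left (v x) (v y)
      have := le_max_right (v x) (v y)
      linarith)
  · intro v hv
    have := main v 1 le_rfl (fun x y => by
      rw [one_mul]
      exact isNonarchimedean v hv x y)
    rw [Real.log_one, mul_zero, add_zero] at this
    exact this

end glob

end Pool.Agent.Zk42.UG
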