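import Pool.Agent.Zk42.UG.G4
import Pool.Agent.H437R2.Man.MW

/-! The number of the ratios: Mordell–Weil and packing. -/

set_option autoImplicit false

namespace Pool.Agent.Zk42.UG

open Pool.Agent.Zk42.UC Finset Polynomial Pool.Agent.H437R2.Man Height

/-- many points in a ball: some of them are close to each other -/
lemma pack (n : ℕ) (κ : ℝ) (hκ : 0 < κ) : ∃ F : ℕ, ∀ {ι : Type} [DecidableEq ι] (m : ℕ) (R : ℝ),
    0 < R → ∀ (Y : Finset ι) (g : ι → EuclideanSpace ℝ (Fin n)), (∀ t ∈ Y, ‖g t‖ ≤ R) →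
    F * m < Y.card → ∃ Y' ⊆ Y, m < Y'.card ∧ ∀ t ∈ Y', ∀ t' ∈ Y', ‖g t - g t'‖ ≤ 2 * κ * R := by
  classical
  obtain ⟨s, -, hsf, hs⟩ := finite_cover_balls_of_compact
    (isCompact_closedBall (0 : EuclideanSpace ℝ (Fin n)) 1) hκ
  refine ⟨hsf.toFinset.card, ?_⟩
  intro ι _ m R hR Y g hg hm
  have h1 : ∀ t ∈ Y, ∃ x ∈ hsf.toFinset, ‖R⁻¹ • g t - x‖ < κ := by
    intro t ht
    have h2 : R⁻¹ • g t ∈ Metric.closedBall (0 : EuclideanSpace ℝ (Fin n)) 1 := by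
      rw [mem_closedBall_zero_iff, norm_smul, Real.norm_of_nonneg (by positivity)]
      rw [inv_mul_le_iff₀ hR, mul_one]
      exact hg t ht
    have h3 := hs h2
    simp only [Set.mem_iUnion, Metric.mem_ball, dist_eq_norm, exists_prop] at h3
    obtain ⟨x, hx, h4⟩ := h3
    exact ⟨x, hsf.mem_toFinset.2 hx, h4⟩
  choose! c hc1 hc2 using h1
  obtain ⟨x, -, hx⟩ := exists_lt_card_fiber_of_mul_lt_card_of_maps_to hc1 hm
  refine ⟨_, filter_subset _ _, hx, ?_⟩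
  intro t ht t' ht'
  rw [mem_filter] at ht ht'
  have e1 := hc2 t ht.1
  have e2 := hc2 t' ht'.1
  rw [ht.2] at e1
  rw [ht'.2] at e2
  have e3 : g t - g t' = R • ((R⁻¹ • g t - x) - (R⁻¹ • g t' - x)) := by
    rw [sub_sub_sub_cancel_right, smul_sub, smul_smul, smul_smul, mul_inv_cancel₀ hR.ne', one_smul,
      one_smul]
  rw [e3, norm_smul, Real.norm_of_nonneg hR.le]
  have e4 := norm_sub_le (R⁻¹ • g t - x) (R⁻¹ • g t' - x)
  calc R * ‖R⁻¹ • g t - x - (R⁻¹ • g t' - x)‖ ≤ R * (κ + κ) := by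
        gcongr
        linarith
    _ = _ := by ring

section curve

variable {L : Type} [Field L]

/-- the Weierstrass point -/
lemma w_eqn {a b c s y : L} (ha : a ≠ 0) (hb : b ≠ 0) (hc : c ≠ 0) (hs : s ≠ 0)
    (hy : y ^ 2 = cf a b c s) :
    (-(y / (a * b * c) ^ 2 / s ^ 2)) ^ 2 =
      (-(1 / (a * b * c)) / s + 1 / (a * (a * b * c))) *
      (-(1 / (a * b * c)) / s + 1 / (b * (a * b * c))) *
      (-(1 / (a * b * c)) / s + 1 / (c * (a * b * c))) := by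
  have e : (-(y / (a * b * c) ^ 2 / s ^ 2)) ^ 2 = y ^ 2 / ((a * b * c) ^ 4 * s ^ 4) := by
    field_simp
  rw [e, hy]
  unfold cf
  field_simp
  ring

lemma w_diff {a b c s y t z : L} (ha : a ≠ 0) (hb : b ≠ 0) (hc : c ≠ 0) (hs : s ≠ 0) (ht : t ≠ 0)
    (hst : s ≠ t) (hy : y ^ 2 = cf a b c s) (hz : z ^ 2 = cf a b c t) :
    ((-(y / (a * b * c) ^ 2 / s ^ 2) + -(z / (a * b * c) ^ 2 / t ^ 2)) /
      (-(1 / (a * b * c)) / s - -(1 / (a * b * c)) / t)) ^ 2 -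
      (1 / (a * (a * b * c)) + 1 / (b * (a * b * c)) + 1 / (c * (a * b * c))) -
      -(1 / (a * b * c)) / s - -(1 / (a * b * c)) / t =
      (1 / (a * b * c)) ^ 2 * cG a b c s y t z := by
  have hst' : s - t ≠ 0 := sub_ne_zero.2 hst
  have e1 : -(1 / (a * b * c)) / s - -(1 / (a * b * c)) / t = (s - t) / (a * b * c * s * t) := by
    field_simp
    ring
  have e2 : (-(y / (a * b * c) ^ 2 / s ^ 2) + -(z / (a * b * c) ^ 2 / t ^ 2)) ^ 2 =
      (cf a b c s * t ^ 4 + cf a b c t * s ^ 4 + 2 * (y * z) * (s * t) ^ 2) /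
        ((a * b * c) ^ 4 * (s * t) ^ 4) := by
    rw [← hy, ← hz]
    field_simp
    ring
  rw [e1, div_pow, e2]
  unfold cG cN cf
  field_simp
  ring

lemma xdiff [DecidableEq L] {e₁ e₂ e₃ x₁ y₁ x₂ y₂ : L}
    (h₁ : (MW.crv e₁ e₂ e₃).toAffine.Nonsingular x₁ y₁)
    (h₂ : (MW.crv e₁ e₂ e₃).toAffine.Nonsingular x₂ y₂) (hx : x₁ ≠ x₂) :
    (WeierstrassCurve.Affine.Point.some _ _ h₁ - WeierstrassCurve.Affine.Point.some _ _ h₂).xRep
      = ![((y₁ + y₂) / (x₁ - x₂)) ^ 2 - (e₁ + e₂ + e₃) - x₁ - x₂, 1] := by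
  rw [sub_eq_add_neg, WeierstrassCurve.Affine.Point.neg_some,
    WeierstrassCurve.Affine.Point.add_of_X_ne hx, WeierstrassCurve.Affine.Point.xRep_some]
  congr 1
  rw [WeierstrassCurve.Affine.slope_of_X_ne hx]
  simp [WeierstrassCurve.Affine.addX, WeierstrassCurve.Affine.negY, MW.crv]

end curve

/-- a uniform bound for the number of the ratios -/
theorem ratio_bound {d : ℕ} (hd : 5 ≤ d) (L : Type) [Field L] [NumberField L] {μ : L}
    (hμ : IsPrimitiveRoot μ d) :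
    ∃ N : ℕ, ∀ a b w : L, a ≠ 0 → w ≠ 0 → PP (fu a b d) w → ∀ Y : Finset L,
      (∀ t ∈ Y, (∃ u : L, PP (fu a b d) u ∧ t = u / w) ∧ t ^ d ≠ 1 ∧
        ∃ y : L, y ^ 2 = f4 μ (μ ^ 2) (μ ^ 3) (μ ^ 4) t) → Y.card ≤ N := by
  classical
  have hμd : μ ^ d = 1 := hμ.pow_eq_one
  have hne : ∀ i j : ℕ, i < d → j < d → i ≠ j → μ ^ i ≠ μ ^ j := fun i j hi hj hij h =>
    hij (hμ.pow_inj hi hj h)
  have n12 : μ ≠ μ ^ 2 := by simpa using hne 1 2 (by omega) (by omega) (by norm_num)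
  have n13 : μ ≠ μ ^ 3 := by simpa using hne 1 3 (by omega) (by omega) (by norm_num)
  have n14 : μ ≠ μ ^ 4 := by simpa using hne 1 4 (by omega) (by omega) (by norm_num)
  have n23 : μ ^ 2 ≠ μ ^ 3 := hne 2 3 (by omega) (by omega) (by norm_num)
  have n24 : μ ^ 2 ≠ μ ^ 4 := hne 2 4 (by omega) (by omega) (by norm_num)
  have n34 : μ ^ 3 ≠ μ ^ 4 := hne 3 4 (by omega) (by omega) (by norm_num)
  have p2 : (μ ^ 2) ^ d = 1 := by rw [← pow_mul, mul_comm, pow_mul, hμd, one_pow]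
  have p3 : (μ ^ 3) ^ d = 1 := by rw [← pow_mul, mul_comm, pow_mul, hμd, one_pow]
  have p4 : (μ ^ 4) ^ d = 1 := by rw [← pow_mul, mul_comm, pow_mul, hμd, one_pow]
  obtain ⟨C1, hC1⟩ := gap hμ (by omega) hμd p2 p3 p4 n12 n13 n14 n23 n24 n34
  obtain ⟨C2, hC2⟩ := height_ratio (L := L) (d := d) (by omega)
  set z4 := μ ^ 4 with hz4
  set A := μ - z4 with hA
  set B := μ ^ 2 - z4 with hB
  set C := μ ^ 3 - z4 with hC
  have hA0 : A ≠ 0 := sub_ne_zero.2 n14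
  have hB0 : B ≠ 0 := sub_ne_zero.2 n24
  have hC0 : C ≠ 0 := sub_ne_zero.2 n34
  have hQ0 : A * B * C ≠ 0 := mul_ne_zero (mul_ne_zero hA0 hB0) hC0
  have hAB : A ≠ B := fun h => n12 (sub_left_injective h)
  have hAC : A ≠ C := fun h => n13 (sub_left_injective h)
  have hBC : B ≠ C := fun h => n23 (sub_left_injective h)
  have q12 : 1 / (A * (A * B * C)) ≠ 1 / (B * (A * B * C)) := by
    intro h
    rw [one_div, one_div, inv_inj] at h
    exact hAB (mul_right_cancel₀ hQ0 h)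
  have q13 : 1 / (A * (A * B * C)) ≠ 1 / (C * (A * B * C)) := by
    intro h
    rw [one_div, one_div, inv_inj] at h
    exact hAC (mul_right_cancel₀ hQ0 h)
  have q23 : 1 / (B * (A * B * C)) ≠ 1 / (C * (A * B * C)) := by
    intro h
    rw [one_div, one_div, inv_inj] at h
    exact hBC (mul_right_cancel₀ hQ0 h)
  obtain ⟨n, ψ, C3, hψ⟩ := MW.crv_embed q12 q13 q23
  -- constants
  set tw : ℝ := ((totalWeight L : ℕ) : ℝ) with htw
  have htw0 : 0 ≤ tw := Nat.cast_nonneg _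
  set C5 : ℝ := C3 + logHeight₁ (-(1 / (A * B * C))) + tw * Real.log 2 + logHeight₁ z4 with hC5
  set C7 : ℝ := C3 + logHeight₁ (((1 / (A * B * C)) ^ 2)⁻¹) with hC7
  set dd : ℝ := ((d * (d - 1) : ℕ) : ℝ) with hdd
  have hd0 : (0 : ℝ) < d := by
    have : 0 < d := by omega
    exact_mod_cast this
  have hddd : (d : ℝ) ≤ dd := by
    have : d * 1 ≤ d * (d - 1) := Nat.mul_le_mul_left d (by omega)
    rw [hdd]
    exact_mod_cast (by omega : d ≤ d * (d - 1))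
  have hdd0 : 0 < dd := lt_of_lt_of_le hd0 hddd
  set C6 : ℝ := |C2| / dd + |C5| + 1 with hC6
  have hC60 : 0 < C6 := by positivity
  set κ : ℝ := 1 / (4 * (2 * d + 1)) with hκ
  have hκ0 : 0 < κ := by positivity
  obtain ⟨F, hF⟩ := pack n κ hκ0
  set M : ℝ := (2 * d + 1) ^ 2 with hM
  have hM0 : 0 ≤ M := by positivity
  set C8 : ℝ := |C1| + M * |C7| + C6 / 4 with hC8
  set H0 : ℝ := 4 / 3 * d * C8 with hH0
  have hfin := NumberField.finite_setOfPred_logHeight₁_le L ((H0 + C2) / dd)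
  refine ⟨F * (2 * d) + hfin.toFinset.card, ?_⟩
  intro a b w ha hw0 hw Y hY
  set H : ℝ := logHeight₁ (a * b ^ (d - 1)) with hH
  have hHnn : 0 ≤ H := zero_le_logHeight₁ _
  have hht : ∀ t ∈ Y, dd * logHeight₁ t ≤ H + C2 := by
    intro t ht
    obtain ⟨⟨u, hu, rfl⟩, -⟩ := hY t ht
    exact hC2 a b u w ha hw0 hu hw
  rcases le_or_gt H H0 with hc | hc
  · have hsub : Y ⊆ hfin.toFinset := by
      intro t ht
      rw [Set.Finite.mem_toFinset]
      show logHeight₁ t ≤ (H0 + C2) / dd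
      rw [le_div_iff₀ hdd0]
      have := hht t ht
      linarith
    exact (card_le_card hsub).trans (Nat.le_add_left _ _)
  by_contra hcard
  push Not at hcard
  have hcard' : F * (2 * d) < Y.card := by omega
  choose! y hy using fun t ht => (hY t ht).2.2
  have hs0 : ∀ t ∈ Y, t - z4 ≠ 0 := by
    intro t ht h
    apply (hY t ht).2.1
    rw [sub_eq_zero.1 h, p4]
  -- the points
  have hns : ∀ t ∈ Y, (MW.crv (1 / (A * (A * B * C))) (1 / (B * (A * B * C)))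
      (1 / (C * (A * B * C)))).toAffine.Nonsingular (-(1 / (A * B * C)) / (t - z4))
      (-(y t / (A * B * C) ^ 2 / (t - z4) ^ 2)) := fun t ht =>
    MW.crv_nonsing q12 q13 q23 (w_eqn hA0 hB0 hC0 (hs0 t ht) (hy t ht))
  let P : L → (MW.crv (1 / (A * (A * B * C))) (1 / (B * (A * B * C)))
      (1 / (C * (A * B * C)))).toAffine.Point := fun t =>
    if h : t ∈ Y then WeierstrassCurve.Affine.Point.some _ _ (hns t h) else 0
  have hP : ∀ t (h : t ∈ Y), P t = WeierstrassCurve.Affine.Point.some _ _ (hns t h) :=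
    fun t h => dif_pos h
  have hnorm : ∀ t ∈ Y, ‖ψ (P t)‖ ^ 2 ≤ H / dd + C6 := by
    intro t ht
    have h1 := hψ (P t)
    rw [hP t ht, WeierstrassCurve.Affine.Point.xRep_some, ← logHeight₁_eq_logHeight, abs_le] at h1
    rw [← hP t ht] at h1
    have h2 : logHeight₁ (-(1 / (A * B * C)) / (t - z4)) ≤
        logHeight₁ (-(1 / (A * B * C))) + (tw * Real.log 2 + logHeight₁ t + logHeight₁ z4) := by
      rw [div_eq_mul_inv]
      refine (logHeight₁_mul_le _ _).trans ?_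
      rw [logHeight₁_inv]
      have := logHeight₁_sub_le t z4
      linarith
    have h3 := hht t ht
    have h4 : logHeight₁ t ≤ H / dd + C2 / dd := by
      rw [← add_div, le_div_iff₀ hdd0]
      linarith
    have h5 : C2 / dd ≤ |C2| / dd := by gcongr; exact le_abs_self _
    have h6 := le_abs_self C5
    rw [hC6]
    linarith
  set R : ℝ := Real.sqrt (H / dd + C6) with hR
  have hRpos : 0 < H / dd + C6 := by positivity
  have hR0 : 0 < R := Real.sqrt_pos.2 hRpos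
  have hR2 : R ^ 2 = H / dd + C6 := Real.sq_sqrt hRpos.le
  obtain ⟨Y', hY', hc1, hclose⟩ := hF (2 * d) R hR0 Y (fun t => ψ (P t)) (fun t ht => by
    rw [hR]
    exact Real.le_sqrt_of_sq_le (hnorm t ht)) hcard'
  obtain ⟨Y'', hY'', hc2⟩ := exists_subset_card_eq (Nat.succ_le_iff.2 hc1)
  have hsubY : Y'' ⊆ Y := hY''.trans hY'
  have key := hC1 Y'' (by omega) y (fun t ht => hy t (hsubY ht)) a b w hw
    (fun t ht => (hY t (hsubY ht)).1)
  have hterm : ∀ p ∈ Y''.offDiag,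
      logHeight₁ (G4 μ (μ ^ 2) (μ ^ 3) z4 p.1 (y p.1) p.2 (y p.2)) ≤
        4 * κ ^ 2 * R ^ 2 + |C7| := by
    intro p hp
    rw [mem_offDiag] at hp
    obtain ⟨m1, m2, hne'⟩ := hp
    have m1' := hsubY m1
    have m2' := hsubY m2
    have hsne : p.1 - z4 ≠ p.2 - z4 := fun h => hne' (sub_left_injective h)
    have hx : -(1 / (A * B * C)) / (p.1 - z4) ≠ -(1 / (A * B * C)) / (p.2 - z4) := by
      intro h
      apply hsne
      have hq : -(1 / (A * B * C)) ≠ 0 := neg_ne_zero.2 (one_div_ne_zero hQ0)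
      rw [div_eq_div_iff (hs0 _ m1') (hs0 _ m2')] at h
      exact (mul_left_cancel₀ hq h).symm
    have h1 := hψ (P p.1 - P p.2)
    rw [hP _ m1', hP _ m2', xdiff _ _ hx, w_diff hA0 hB0 hC0 (hs0 _ m1') (hs0 _ m2') hsne
      (hy _ m1') (hy _ m2'), ← logHeight₁_eq_logHeight, abs_le] at h1
    rw [← hP _ m1', ← hP _ m2', map_sub] at h1
    have h2 : G4 μ (μ ^ 2) (μ ^ 3) z4 p.1 (y p.1) p.2 (y p.2) = ((1 / (A * B * C)) ^ 2)⁻¹ *
        ((1 / (A * B * C)) ^ 2 * cG A B C (p.1 - z4) (y p.1) (p.2 - z4) (y p.2)) := by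
      rw [inv_mul_cancel_left₀ (pow_ne_zero _ (one_div_ne_zero hQ0))]
      rfl
    have h3 := logHeight₁_mul_le ((1 / (A * B * C)) ^ 2)⁻¹
      ((1 / (A * B * C)) ^ 2 * cG A B C (p.1 - z4) (y p.1) (p.2 - z4) (y p.2))
    rw [← h2] at h3
    have h4 : ‖ψ (P p.1) - ψ (P p.2)‖ ≤ 2 * κ * R := hclose _ (hY'' m1) _ (hY'' m2)
    have h5 : ‖ψ (P p.1) - ψ (P p.2)‖ ^ 2 ≤ (2 * κ * R) ^ 2 := by gcongr
    have h6 := le_abs_self C7
    have h7 : (2 * κ * R) ^ 2 = 4 * κ ^ 2 * R ^ 2 := by ring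
    rw [h7] at h5
    linarith
  have hsum := sum_le_card_nsmul _ _ _ hterm
  rw [nsmul_eq_mul] at hsum
  have hoff : ((Y''.offDiag.card : ℕ) : ℝ) ≤ M := by
    rw [offDiag_card, hc2]
    have : (2 * d).succ * (2 * d).succ - (2 * d).succ ≤ (2 * d + 1) ^ 2 := by
      rw [pow_two]
      exact Nat.sub_le _ _
    rw [hM]
    exact_mod_cast this
  have hbr : 0 ≤ 4 * κ ^ 2 * R ^ 2 + |C7| := by positivity
  have h8 : ((Y''.offDiag.card : ℕ) : ℝ) * (4 * κ ^ 2 * R ^ 2 + |C7|) ≤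
      M * (4 * κ ^ 2 * R ^ 2 + |C7|) := mul_le_mul_of_nonneg_right hoff hbr
  have h9 : M * (4 * κ ^ 2 * R ^ 2 + |C7|) = R ^ 2 / 4 + M * |C7| := by
    rw [hM, hκ]
    field_simp
  have h10 := le_abs_self C1
  have h11 : H / dd ≤ H / d := by gcongr
  have h12 : 1 / (d : ℝ) * H = H / d := by ring
  rw [← hH, h12] at key
  have h13 : H / d ≤ 4 / 3 * C8 := by
    rw [hC8]
    have h15 := h8.trans_eq h9
    have h14 := key.trans (add_le_add le_rfl (hsum.trans h15))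
    rw [hR2] at h14
    linarith
  rw [div_le_iff₀ hd0] at h13
  rw [hH0] at hc
  linarith

end Pool.Agent.Zk42.UG
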